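import Pool.Agent.H735CB.Moment

/-! The general counting lemma and the count for Moebius images. -/

set_option autoImplicit false

open Finset

namespace Pool.Agent.H735CB

variable {p : ℕ} [Fact p.Prime]

/-- General bound for the moments over all characters and all parameters. -/
theorem moment_le {J : Type*} [DecidableEq J] (s : Finset J) (D : J → ZMod p → ZMod p) (k K M : ℕ)
    (Y : (Fin k → J) → Finset J) (hY : ∀ x, (Y x).card ≤ M)
    (h : ∀ x y : Fin k → J, (∀ i, y i ∈ s) →
      (univ.filter (fun t : ZMod p => ∏ i, D (x i) t = ∏ i, D (y i) t ∧ ∏ i, D (x i) t ≠ 0)).card ≤ K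
        ∨ ∀ i, y i ∈ Y x) :
    ∑ t : ZMod p, ∑ χ : DirichletCharacter ℂ p, ‖∑ j ∈ s, χ (D j t)‖ ^ (2 * k)
      ≤ (p : ℝ) * (K * (s.card : ℝ) ^ (2 * k) + p * ((s.card : ℝ) ^ k * (M : ℝ) ^ k)) := by
  classical
  have h1 : ∀ t : ZMod p, ∑ χ : DirichletCharacter ℂ p, ‖∑ j ∈ s, χ (D j t)‖ ^ (2 * k)
      = ((p : ℝ) - 1) * (((Fintype.piFinset (fun _ : Fin k => s)) ×ˢ
          (Fintype.piFinset (fun _ : Fin k => s))).filter
          (fun q => ∏ i, D (q.1 i) t = ∏ i, D (q.2 i) t ∧ ∏ i, D (q.1 i) t ≠ 0)).card :=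
    fun t => moment_one s (fun j => D j t) k
  rw [Finset.sum_congr rfl (fun t _ => h1 t), ← Finset.mul_sum]
  set Pi := Fintype.piFinset (fun _ : Fin k => s) with hPi
  have hPic : Pi.card = s.card ^ k := by rw [hPi, Fintype.card_piFinset]; simp
  -- swap the sums
  have hswap : ∑ t : ZMod p, (((Pi ×ˢ Pi).filter
      (fun q => ∏ i, D (q.1 i) t = ∏ i, D (q.2 i) t ∧ ∏ i, D (q.1 i) t ≠ 0)).card)
      = ∑ q ∈ Pi ×ˢ Pi, (univ.filter (fun t : ZMod p => ∏ i, D (q.1 i) t = ∏ i, D (q.2 i) t ∧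
        ∏ i, D (q.1 i) t ≠ 0)).card := by
    simp only [Finset.card_filter]
    rw [Finset.sum_comm]
  have hbound : ∑ q ∈ Pi ×ˢ Pi, (univ.filter (fun t : ZMod p => ∏ i, D (q.1 i) t = ∏ i, D (q.2 i) t ∧
        ∏ i, D (q.1 i) t ≠ 0)).card ≤ K * s.card ^ (2 * k) + p * (s.card ^ k * M ^ k) := by
    rw [Finset.sum_product]
    have hx : ∀ x ∈ Pi, ∑ y ∈ Pi, (univ.filter (fun t : ZMod p => ∏ i, D (x i) t = ∏ i, D (y i) t ∧
        ∏ i, D (x i) t ≠ 0)).card ≤ K * s.card ^ k + p * M ^ k := by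
      intro x _
      have hy : ∀ y ∈ Pi, (univ.filter (fun t : ZMod p => ∏ i, D (x i) t = ∏ i, D (y i) t ∧
        ∏ i, D (x i) t ≠ 0)).card ≤ K + (if y ∈ Fintype.piFinset (fun _ : Fin k => Y x) then p else 0) := by
        intro y hy
        rw [hPi, Fintype.mem_piFinset] at hy
        rcases h x y hy with h2 | h2
        · exact h2.trans (Nat.le_add_right _ _)
        · rw [if_pos (Fintype.mem_piFinset.mpr h2)]
          refine le_trans (Finset.card_le_univ _) ?_
          rw [ZMod.card]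
          exact Nat.le_add_left _ _
      refine (Finset.sum_le_sum hy).trans ?_
      rw [Finset.sum_add_distrib, Finset.sum_const, smul_eq_mul, hPic, mul_comm]
      refine Nat.add_le_add_left ?_ _
      rw [← Finset.sum_filter, Finset.sum_const, smul_eq_mul, mul_comm]
      refine Nat.mul_le_mul_left _ ?_
      calc (Pi.filter (fun y => y ∈ Fintype.piFinset (fun _ : Fin k => Y x))).card
          ≤ (Fintype.piFinset (fun _ : Fin k => Y x)).card := by
            refine Finset.card_le_card (fun y hy => (Finset.mem_filter.mp hy).2)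
        _ = (Y x).card ^ k := by rw [Fintype.card_piFinset]; simp
        _ ≤ M ^ k := Nat.pow_le_pow_left (hY x) k
    refine (Finset.sum_le_sum hx).trans ?_
    rw [Finset.sum_const, smul_eq_mul, hPic]
    apply le_of_eq
    ring
  have hcast : (∑ t : ZMod p, ((((Pi ×ˢ Pi).filter
      (fun q => ∏ i, D (q.1 i) t = ∏ i, D (q.2 i) t ∧ ∏ i, D (q.1 i) t ≠ 0)).card : ℕ) : ℝ))
      ≤ K * (s.card : ℝ) ^ (2 * k) + p * ((s.card : ℝ) ^ k * (M : ℝ) ^ k) := by
    rw [← Nat.cast_sum, hswap]
    exact_mod_cast hbound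
  have hp1 : (1 : ℝ) ≤ p := by exact_mod_cast (Fact.out : p.Prime).one_lt.le
  have hnn : (0 : ℝ) ≤ ∑ t : ZMod p, ((((Pi ×ˢ Pi).filter
      (fun q => ∏ i, D (q.1 i) t = ∏ i, D (q.2 i) t ∧ ∏ i, D (q.1 i) t ≠ 0)).card : ℕ) : ℝ) :=
    Finset.sum_nonneg (fun _ _ => Nat.cast_nonneg _)
  calc _ ≤ (p : ℝ) * ∑ t : ZMod p, ((((Pi ×ˢ Pi).filter
      (fun q => ∏ i, D (q.1 i) t = ∏ i, D (q.2 i) t ∧ ∏ i, D (q.1 i) t ≠ 0)).card : ℕ) : ℝ) :=
        mul_le_mul_of_nonneg_right (by linarith) hnn
    _ ≤ _ := mul_le_mul_of_nonneg_left hcast (by linarith)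

/-- the difference of two elements of the Moebius image -/
def Dm (j : ZMod p × ZMod p) (t : ZMod p) : ZMod p := (j.2 - j.1) * ((j.1 + t)⁻¹ * (j.2 + t)⁻¹)

open Polynomial in
/-- counting parameters for Moebius images -/
theorem count_mob (k : ℕ) (x y : Fin k → ZMod p × ZMod p) :
    (univ.filter (fun t : ZMod p => ∏ i, Dm (x i) t = ∏ i, Dm (y i) t ∧ ∏ i, Dm (x i) t ≠ 0)).card
      ≤ 2 * k
    ∨ ∀ i, y i ∈ (univ.image (fun i => (x i).1) ∪ univ.image (fun i => (x i).2)) ×ˢ
        (univ.image (fun i => (x i).1) ∪ univ.image (fun i => (x i).2)) := by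
  classical
  let Q : (Fin k → ZMod p × ZMod p) → (ZMod p)[X] :=
    fun z => ∏ i, ((X + C (z i).1) * (X + C (z i).2))
  let c : (Fin k → ZMod p × ZMod p) → ZMod p := fun z => ∏ i, ((z i).2 - (z i).1)
  have hQdeg : ∀ z, (Q z).natDegree ≤ 2 * k := by
    intro z
    refine (Polynomial.natDegree_prod_le _ _).trans ?_
    refine (Finset.sum_le_sum (g := fun _ => 2) (fun i _ => ?_)).trans ?_
    · refine (Polynomial.natDegree_mul_le).trans ?_
      rw [Polynomial.natDegree_X_add_C, Polynomial.natDegree_X_add_C]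
    · simp [mul_comm]
  have hQeval : ∀ z (t : ZMod p), (Q z).eval t = ∏ i, (((z i).1 + t) * ((z i).2 + t)) := by
    intro z t
    simp only [Q, Polynomial.eval_prod]
    refine Finset.prod_congr rfl (fun i _ => ?_)
    simp [add_comm]
  have hprod : ∀ z (t : ZMod p), ∏ i, Dm (z i) t = c z * ((Q z).eval t)⁻¹ := by
    intro z t
    simp only [Dm, c]
    rw [hQeval, Finset.prod_mul_distrib, ← Finset.prod_inv_distrib]
    congr 1
    refine Finset.prod_congr rfl (fun i _ => ?_)
    rw [mul_inv]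
  let G : (ZMod p)[X] := C (c x) * Q y - C (c y) * Q x
  have hsol : ∀ t : ZMod p, (∏ i, Dm (x i) t = ∏ i, Dm (y i) t ∧ ∏ i, Dm (x i) t ≠ 0) →
      G.eval t = 0 ∧ c x ≠ 0 ∧ c y ≠ 0 := by
    rintro t ⟨h1, h2⟩
    have h3 : ∏ i, Dm (y i) t ≠ 0 := h1 ▸ h2
    rw [hprod] at h2 h3
    have hcx := left_ne_zero_of_mul h2
    have hcy := left_ne_zero_of_mul h3
    have hqx : (Q x).eval t ≠ 0 := fun h => (right_ne_zero_of_mul h2) (by rw [h, inv_zero])
    have hqy : (Q y).eval t ≠ 0 := fun h => (right_ne_zero_of_mul h3) (by rw [h, inv_zero])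
    refine ⟨?_, hcx, hcy⟩
    rw [hprod, hprod] at h1
    simp only [G, Polynomial.eval_sub, Polynomial.eval_mul, Polynomial.eval_C]
    field_simp at h1
    rw [sub_eq_zero]
    rw [mul_comm (c y)]
    first
      | exact h1
      | (rw [h1]; done)
      | linear_combination h1
  by_cases hG : G = 0
  · by_cases hex : ∃ t : ZMod p, (∏ i, Dm (x i) t = ∏ i, Dm (y i) t ∧ ∏ i, Dm (x i) t ≠ 0)
    · right
      obtain ⟨t0, ht0⟩ := hex
      obtain ⟨-, hcx, hcy⟩ := hsol t0 ht0
      have key : ∀ u : ZMod p, (Q y).eval u = 0 → ∃ j, (x j).1 + u = 0 ∨ (x j).2 + u = 0 := by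
        intro u hu
        have h1 : G.eval u = 0 := by rw [hG]; simp
        simp only [G, Polynomial.eval_sub, Polynomial.eval_mul, Polynomial.eval_C, hu, mul_zero,
          zero_sub, neg_eq_zero] at h1
        have h2 : (Q x).eval u = 0 := by
          rcases mul_eq_zero.mp h1 with h | h
          · exact absurd h hcy
          · exact h
        rw [hQeval, Finset.prod_eq_zero_iff] at h2
        obtain ⟨j, -, hj⟩ := h2
        exact ⟨j, mul_eq_zero.mp hj⟩
      intro i
      have hm : ∀ u : ZMod p, (∃ j, (x j).1 + (-u) = 0 ∨ (x j).2 + (-u) = 0) →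
          u ∈ (univ.image (fun i => (x i).1) ∪ univ.image (fun i => (x i).2)) := by
        rintro u ⟨j, hj | hj⟩
        · rw [Finset.mem_union]; left
          rw [Finset.mem_image]
          exact ⟨j, mem_univ _, by linear_combination hj⟩
        · rw [Finset.mem_union]; right
          rw [Finset.mem_image]
          exact ⟨j, mem_univ _, by linear_combination hj⟩
      rw [Finset.mem_product]
      refine ⟨hm _ (key _ ?_), hm _ (key _ ?_)⟩
      · rw [hQeval]
        apply Finset.prod_eq_zero (mem_univ i)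
        simp
      · rw [hQeval]
        apply Finset.prod_eq_zero (mem_univ i)
        simp
    · left
      rw [Finset.filter_eq_empty_iff.mpr (fun t _ ht => hex ⟨t, ht⟩)]
      simp
  · left
    have hsub : (univ.filter (fun t : ZMod p => ∏ i, Dm (x i) t = ∏ i, Dm (y i) t ∧
        ∏ i, Dm (x i) t ≠ 0)) ⊆ G.roots.toFinset := by
      intro t ht
      rw [Multiset.mem_toFinset, Polynomial.mem_roots hG]
      exact (hsol t (Finset.mem_filter.mp ht).2).1
    refine (Finset.card_le_card hsub).trans ((Multiset.toFinset_card_le _).trans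
      ((Polynomial.card_roots' _).trans ?_))
    refine (Polynomial.natDegree_sub_le _ _).trans (max_le ?_ ?_)
    · exact (Polynomial.natDegree_C_mul_le _ _).trans (hQdeg _)
    · exact (Polynomial.natDegree_C_mul_le _ _).trans (hQdeg _)

/-- card of the exceptional set -/
theorem card_Sx (k : ℕ) (x : Fin k → ZMod p × ZMod p) :
    ((univ.image (fun i => (x i).1) ∪ univ.image (fun i => (x i).2)) ×ˢ
        (univ.image (fun i => (x i).1) ∪ univ.image (fun i => (x i).2))).card ≤ (2 * k) ^ 2 := by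
  rw [Finset.card_product, sq]
  have h : (univ.image (fun i => (x i).1) ∪ univ.image (fun i => (x i).2)).card ≤ 2 * k := by
    refine (Finset.card_union_le _ _).trans ?_
    have h1 := Finset.card_image_le (s := (univ : Finset (Fin k))) (f := fun i => (x i).1)
    have h2 := Finset.card_image_le (s := (univ : Finset (Fin k))) (f := fun i => (x i).2)
    simp only [Finset.card_univ, Fintype.card_fin] at h1 h2
    omega
  exact Nat.mul_le_mul h h

end Pool.Agent.H735CB
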