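import Pool.Agent.H735CB.Mob

/-! The four main statements. -/

set_option autoImplicit false

open Finset

namespace Pool.Agent.H735CB

/-- (A) one character, almost all Moebius images -/
theorem mob_single (p : ℕ) (hp : p.Prime) (A : Finset (ZMod p)) (hA : 2 ≤ A.card)
    (χ : DirichletCharacter ℂ p) (hχ : χ ≠ 1) (τ : ℝ) (hτ : 0 ≤ τ) (hτ2 : τ ≤ 2) :
    ({t : ZMod p | ((mob A t).card : ℝ) ^ (2 - τ) ≤ ‖∑ a ∈ mob A t, ∑ b ∈ mob A t, χ (a - b)‖}.ncard : ℝ)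
      ≤ 16 * p * (A.card : ℝ) ^ (2 * τ - 1) := by
  have : Fact p.Prime := ⟨hp⟩
  have hA0 : (0 : ℝ) < A.card := by exact_mod_cast (by omega : 0 < A.card)
  have hm := markov (fun t : ZMod p => ‖∑ j ∈ A ×ˢ A, χ (Dm j t)‖) (fun _ => norm_nonneg _)
    ((A.card : ℝ) ^ (2 - τ) / 4) (p * (A.card : ℝ) ^ 3) (by positivity) 2 (second_mob χ hχ A)
    {t : ZMod p | ((mob A t).card : ℝ) ^ (2 - τ) ≤ ‖∑ a ∈ mob A t, ∑ b ∈ mob A t, χ (a - b)‖} ?_
  · have h1 : ((A.card : ℝ) ^ (2 - τ) / 4) ^ 2 = (A.card : ℝ) ^ 4 / ((A.card : ℝ) ^ (2 * τ) * 16) := by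
      rw [div_pow, Real.rpow_sub hA0, div_pow]
      have h2 : ((A.card : ℝ) ^ (2 : ℝ)) = (A.card : ℝ) ^ 2 := by norm_cast
      have h3 : ((A.card : ℝ) ^ τ) ^ 2 = (A.card : ℝ) ^ (2 * τ) := by
        rw [← Real.rpow_natCast, ← Real.rpow_mul hA0.le]
        congr 1; push_cast; ring
      rw [h2, h3, div_div]
      norm_num
      ring
    rw [h1] at hm
    have h4 : (0 : ℝ) < (A.card : ℝ) ^ (2 * τ) * 16 := by positivity
    have h5 : (A.card : ℝ) ^ (2 * τ - 1) = (A.card : ℝ) ^ (2 * τ) / (A.card : ℝ) := by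
      rw [Real.rpow_sub hA0, Real.rpow_one]
    rw [h5]
    have h6 : (0 : ℝ) < (A.card : ℝ) ^ 3 := by positivity
    rw [mul_div_assoc', div_le_iff₀ h4] at hm
    have h7 : ({t : ZMod p | ((mob A t).card : ℝ) ^ (2 - τ) ≤ ‖∑ a ∈ mob A t, ∑ b ∈ mob A t, χ (a - b)‖}.ncard : ℝ)
        * (A.card : ℝ) ≤ 16 * p * (A.card : ℝ) ^ (2 * τ) := by
      have h8 : (({t : ZMod p | ((mob A t).card : ℝ) ^ (2 - τ) ≤ ‖∑ a ∈ mob A t, ∑ b ∈ mob A t, χ (a - b)‖}.ncard : ℝ)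
        * (A.card : ℝ)) * (A.card : ℝ) ^ 3 ≤ (16 * p * (A.card : ℝ) ^ (2 * τ)) * (A.card : ℝ) ^ 3 := by
        nlinarith [hm]
      exact le_of_mul_le_mul_right h8 h6
    rw [← mul_div_assoc, le_div_iff₀ hA0]
    exact h7
  · intro t ht
    simp only [Set.mem_ofPred_eq] at ht
    rw [S_mob] at ht
    refine le_trans ?_ ht
    have h1 : (A.card : ℝ) ≤ 2 * (mob A t).card := by
      have h2 := card_mob_ge A t
      have h3 : A.card ≤ 2 * (mob A t).card := by omega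
      exact_mod_cast h3
    calc (A.card : ℝ) ^ (2 - τ) / 4 ≤ (2 * (mob A t).card : ℝ) ^ (2 - τ) / 4 := by
          gcongr
      _ = 2 ^ (2 - τ) * ((mob A t).card : ℝ) ^ (2 - τ) / 4 := by
          rw [Real.mul_rpow (by norm_num) (Nat.cast_nonneg _)]
      _ ≤ 4 * ((mob A t).card : ℝ) ^ (2 - τ) / 4 := by
          gcongr
          calc (2 : ℝ) ^ (2 - τ) ≤ 2 ^ (2 : ℝ) :=
                Real.rpow_le_rpow_of_exponent_le (by norm_num) (by linarith)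
            _ = 4 := by norm_num
      _ = _ := by ring

/-- (B) all pairs (parameter, character) for Moebius images -/
theorem mob_pairs (δ ε : ℝ) (hδ : 0 < δ) (hε : 0 < ε) :
    ∃ τ : ℝ, 0 < τ ∧ ∃ P : ℕ, ∀ p : ℕ, p.Prime → P ≤ p → ∀ A : Finset (ZMod p),
      (p : ℝ) ^ δ < (A.card : ℝ) →
      ({q : ZMod p × DirichletCharacter ℂ p |
        ((mob A q.1).card : ℝ) ^ (2 - τ) ≤ ‖∑ a ∈ mob A q.1, ∑ b ∈ mob A q.1, q.2 (a - b)‖}.ncard : ℝ)
      ≤ (p : ℝ) ^ (1 + ε) := by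
  obtain ⟨τ, hτ0, hτ1, k, hk, P0, hP⟩ := params δ 2 ε hδ (by norm_num) hε
  refine ⟨τ, hτ0, P0, ?_⟩
  intro p hp hpP A hA
  have : Fact p.Prime := ⟨hp⟩
  have hp1 : (1 : ℝ) ≤ p := by exact_mod_cast hp.one_lt.le
  have hA1 : (1 : ℝ) < A.card := lt_of_le_of_lt (Real.one_le_rpow hp1 hδ.le) hA
  have hA2 : 2 ≤ A.card := by exact_mod_cast hA1
  have hA0 : (0 : ℝ) < A.card := by linarith
  have hAp : (A.card : ℝ) ≤ (p : ℝ) ^ 2 := by
    have h1 : A.card ≤ p := (Finset.card_le_univ A).trans (by rw [ZMod.card])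
    have h2 : (A.card : ℝ) ≤ p := by exact_mod_cast h1
    nlinarith
  apply hP p hp.two_le hpP (A.card : ℝ) hA hAp
  have hmom := moment_le (A ×ˢ A) Dm k (2 * k) ((2 * k) ^ 2)
    (fun x => (univ.image (fun i => (x i).1) ∪ univ.image (fun i => (x i).2)) ×ˢ
        (univ.image (fun i => (x i).1) ∪ univ.image (fun i => (x i).2)))
    (card_Sx k) (fun x y _ => count_mob k x y)
  rw [← Fintype.sum_prod_type' (f := fun (t : ZMod p) (χ : DirichletCharacter ℂ p) =>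
    ‖∑ j ∈ A ×ˢ A, χ (Dm j t)‖ ^ (2 * k))] at hmom
  have hm := markov (fun q : ZMod p × DirichletCharacter ℂ p => ‖∑ j ∈ A ×ˢ A, q.2 (Dm j q.1)‖)
    (fun _ => norm_nonneg _) ((A.card : ℝ) ^ (2 - τ) / 4) _ (by positivity) (2 * k) hmom
    {q : ZMod p × DirichletCharacter ℂ p |
        ((mob A q.1).card : ℝ) ^ (2 - τ) ≤ ‖∑ a ∈ mob A q.1, ∑ b ∈ mob A q.1, q.2 (a - b)‖} ?_
  · refine hm.trans (le_of_eq ?_)
    rw [Finset.card_product]
    push_cast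
    have h1 : (A.card : ℝ) ^ ((2 : ℝ) - 2) = 1 := by norm_num
    rw [h1]
    ring
  · rintro ⟨t, χ⟩ ht
    simp only [Set.mem_ofPred_eq] at ht
    rw [S_mob] at ht
    refine le_trans ?_ ht
    have h1 : (A.card : ℝ) ≤ 2 * (mob A t).card := by
      have h2 := card_mob_ge A t
      have h3 : A.card ≤ 2 * (mob A t).card := by omega
      exact_mod_cast h3
    calc (A.card : ℝ) ^ (2 - τ) / 4 ≤ (2 * (mob A t).card : ℝ) ^ (2 - τ) / 4 := by
          gcongr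
          linarith
      _ = 2 ^ (2 - τ) * ((mob A t).card : ℝ) ^ (2 - τ) / 4 := by
          rw [Real.mul_rpow (by norm_num) (Nat.cast_nonneg _)]
      _ ≤ 4 * ((mob A t).card : ℝ) ^ (2 - τ) / 4 := by
          gcongr
          calc (2 : ℝ) ^ (2 - τ) ≤ 2 ^ (2 : ℝ) :=
                Real.rpow_le_rpow_of_exponent_le (by norm_num) (by linarith)
            _ = 4 := by norm_num
      _ = _ := by ring

/-- (C) all pairs (direction, character) for projections of planar sets -/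
theorem proj_pairs (δ c ε : ℝ) (hδ : 0 < δ) (hc : 0 < c) (hε : 0 < ε) :
    ∃ τ : ℝ, 0 < τ ∧ ∃ P0 : ℕ, ∀ p : ℕ, p.Prime → P0 ≤ p → ∀ P : Finset (ZMod p × ZMod p),
      (p : ℝ) ^ δ < (P.card : ℝ) →
      (∀ α β γ : ZMod p, (α ≠ 0 ∨ β ≠ 0) →
        ((P.filter (fun z => α * z.1 + β * z.2 = γ)).card : ℝ) ≤ (P.card : ℝ) ^ (1 - c)) →
      ({q : ZMod p × DirichletCharacter ℂ p |
        (P.card : ℝ) ^ (2 - τ)
          ≤ ‖∑ x ∈ P, ∑ y ∈ P, q.2 ((x.1 + q.1 * x.2) - (y.1 + q.1 * y.2))‖}.ncard : ℝ)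
      ≤ (p : ℝ) ^ (1 + ε) := by
  obtain ⟨τ, hτ0, hτ1, k, hk, P0, hP⟩ := params δ c ε hδ hc hε
  refine ⟨τ, hτ0, P0, ?_⟩
  intro p hp hpP P hA hL
  have : Fact p.Prime := ⟨hp⟩
  have hp1 : (1 : ℝ) ≤ p := by exact_mod_cast hp.one_lt.le
  have hA1 : (1 : ℝ) < P.card := lt_of_le_of_lt (Real.one_le_rpow hp1 hδ.le) hA
  have hA0 : (0 : ℝ) < P.card := by linarith
  have hAp : (P.card : ℝ) ≤ (p : ℝ) ^ 2 := by
    have h1 : P.card ≤ p * p := (Finset.card_le_univ P).trans (by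
      rw [Fintype.card_prod, ZMod.card])
    have h2 : (P.card : ℝ) ≤ p * p := by exact_mod_cast h1
    nlinarith
  apply hP p hp.two_le hpP (P.card : ℝ) hA hAp
  set L : ℕ := ⌊(P.card : ℝ) ^ (1 - c)⌋₊ with hLdef
  have hLr : (L : ℝ) ≤ (P.card : ℝ) ^ (1 - c) := Nat.floor_le (by positivity)
  have hL' : ∀ α β γ : ZMod p, (α ≠ 0 ∨ β ≠ 0) →
      (P.filter (fun z => α * z.1 + β * z.2 = γ)).card ≤ L :=
    fun α β γ h => Nat.le_floor (hL α β γ h)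
  have hmom := moment_le (P ×ˢ P) Dp k (2 * k) (k * (P.card * L)) (Yp P k)
    (card_Yp P L hL' k) (fun x y hy => count_proj P k x y hy)
  rw [← Fintype.sum_prod_type' (f := fun (t : ZMod p) (χ : DirichletCharacter ℂ p) =>
    ‖∑ j ∈ P ×ˢ P, χ (Dp j t)‖ ^ (2 * k))] at hmom
  have hm := markov (fun q : ZMod p × DirichletCharacter ℂ p => ‖∑ j ∈ P ×ˢ P, q.2 (Dp j q.1)‖)
    (fun _ => norm_nonneg _) ((P.card : ℝ) ^ (2 - τ) / 4) _ (by positivity) (2 * k) hmom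
    {q : ZMod p × DirichletCharacter ℂ p |
        (P.card : ℝ) ^ (2 - τ)
          ≤ ‖∑ x ∈ P, ∑ y ∈ P, q.2 ((x.1 + q.1 * x.2) - (y.1 + q.1 * y.2))‖} ?_
  · refine hm.trans ?_
    rw [Finset.card_product]
    have h1 : (((k * (P.card * L) : ℕ) : ℝ)) ≤ ((2 * k) ^ 2 : ℕ) * (P.card : ℝ) ^ (2 - c) := by
      have h2 : (P.card : ℝ) ^ (2 - c) = P.card * (P.card : ℝ) ^ (1 - c) := by
        rw [show (2 : ℝ) - c = 1 + (1 - c) by ring, Real.rpow_add hA0, Real.rpow_one]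
      rw [h2]
      push_cast
      have h3 : (k : ℝ) ≤ (2 * k) ^ 2 := by
        have : (1 : ℝ) ≤ k := by exact_mod_cast hk
        nlinarith
      have h4 : (P.card : ℝ) * L ≤ P.card * (P.card : ℝ) ^ (1 - c) :=
        mul_le_mul_of_nonneg_left hLr hA0.le
      exact mul_le_mul h3 h4 (by positivity) (by positivity)
    have h5 : (((k * (P.card * L) : ℕ) : ℝ)) ^ k
        ≤ (((2 * k) ^ 2 : ℕ) * (P.card : ℝ) ^ (2 - c)) ^ k :=
      pow_le_pow_left₀ (Nat.cast_nonneg _) h1 k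
    have h6 : (((P.card * P.card : ℕ) : ℝ)) = (P.card : ℝ) ^ 2 := by push_cast; ring
    rw [h6]
    gcongr
  · rintro ⟨t, χ⟩ ht
    simp only [Set.mem_ofPred_eq] at ht
    have h1 : ∑ x ∈ P, ∑ y ∈ P, χ ((x.1 + t * x.2) - (y.1 + t * y.2))
        = ∑ j ∈ P ×ˢ P, χ (Dp j t) := by
      rw [Finset.sum_product]
      refine Finset.sum_congr rfl (fun x _ => Finset.sum_congr rfl (fun y _ => ?_))
      congr 1
      simp only [Dp]; ring
    rw [h1] at ht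
    refine le_trans ?_ ht
    have h2 : (0 : ℝ) ≤ (P.card : ℝ) ^ (2 - τ) := by positivity
    linarith

/-- (D) one character, projections of planar sets, explicit form -/
theorem proj_single (p : ℕ) (hp : p.Prime) (P : Finset (ZMod p × ZMod p)) (hP : P.Nonempty) (L : ℕ)
    (hL : ∀ α β γ : ZMod p, (α ≠ 0 ∨ β ≠ 0) →
      (P.filter (fun z => α * z.1 + β * z.2 = γ)).card ≤ L)
    (χ : DirichletCharacter ℂ p) (hχ : χ ≠ 1) (τ : ℝ) :
    ({t : ZMod p | (P.card : ℝ) ^ (2 - τ)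
        ≤ ‖∑ x ∈ P, ∑ y ∈ P, χ ((x.1 + t * x.2) - (y.1 + t * y.2))‖}.ncard : ℝ)
      ≤ (P.card : ℝ) ^ (2 * τ) * (1 + p * L / P.card) := by
  have : Fact p.Prime := ⟨hp⟩
  have hA0 : (0 : ℝ) < P.card := by exact_mod_cast hP.card_pos
  have hm := markov (fun t : ZMod p => ‖∑ j ∈ P ×ˢ P, χ (Dp j t)‖) (fun _ => norm_nonneg _)
    ((P.card : ℝ) ^ (2 - τ)) _ (by positivity) 2 (second_proj χ hχ P L hL)
    {t : ZMod p | (P.card : ℝ) ^ (2 - τ)
        ≤ ‖∑ x ∈ P, ∑ y ∈ P, χ ((x.1 + t * x.2) - (y.1 + t * y.2))‖} ?_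
  · have h1 : ((P.card : ℝ) ^ (2 - τ)) ^ 2 = (P.card : ℝ) ^ 4 / ((P.card : ℝ) ^ (2 * τ)) := by
      rw [Real.rpow_sub hA0, div_pow]
      have h2 : ((P.card : ℝ) ^ (2 : ℝ)) = (P.card : ℝ) ^ 2 := by norm_cast
      have h3 : ((P.card : ℝ) ^ τ) ^ 2 = (P.card : ℝ) ^ (2 * τ) := by
        rw [← Real.rpow_natCast, ← Real.rpow_mul hA0.le]
        congr 1; push_cast; ring
      rw [h2, h3]
      ring
    rw [h1] at hm
    have h4 : (0 : ℝ) < (P.card : ℝ) ^ (2 * τ) := by positivity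
    rw [mul_div_assoc', div_le_iff₀ h4] at hm
    have h6 : (0 : ℝ) < (P.card : ℝ) ^ 4 := by positivity
    refine le_of_mul_le_mul_right (hm.trans (le_of_eq ?_)) h6
    field_simp
  · intro t ht
    simp only [Set.mem_ofPred_eq] at ht
    have h1 : ∑ x ∈ P, ∑ y ∈ P, χ ((x.1 + t * x.2) - (y.1 + t * y.2))
        = ∑ j ∈ P ×ˢ P, χ (Dp j t) := by
      rw [Finset.sum_product]
      refine Finset.sum_congr rfl (fun x _ => Finset.sum_congr rfl (fun y _ => ?_))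
      congr 1
      simp only [Dp]; ring
    rw [h1] at ht
    exact ht

end Pool.Agent.H735CB
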