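import Pool.Agent.H735CB.LSieve

/-! The final statement for almost all primes. -/

set_option autoImplicit false

open Finset

namespace Pool.Agent.H735CB.LSv

theorem markov2 {α : Type*} [Fintype α] (s : Finset α) (f : α → ℝ) (hf : ∀ x, 0 ≤ f x) (Λ : ℝ)
    (hΛ : 0 ≤ Λ) (k : ℕ) (t : Set α) (ht : ∀ x ∈ t, x ∈ s ∧ Λ ≤ f x) :
    (t.ncard : ℝ) * Λ ^ k ≤ ∑ x ∈ s, f x ^ k := by
  classical
  rw [Set.ncard_eq_toFinset_card' t, ← nsmul_eq_mul, ← Finset.sum_const]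
  calc ∑ _x ∈ t.toFinset, Λ ^ k ≤ ∑ x ∈ t.toFinset, f x ^ k := by
        refine Finset.sum_le_sum (fun x hx => ?_)
        exact pow_le_pow_left₀ hΛ (ht x (by simpa using hx)).2 k
    _ ≤ ∑ x ∈ s, f x ^ k := Finset.sum_le_sum_of_subset_of_nonneg
        (fun x hx => (ht x (by simpa using hx)).1) (fun x _ _ => pow_nonneg (hf x) k)

theorem fact_count (N k K : ℕ) (η C0 C1 : ℝ) (hη : 0 < η) (hK : 1 ≤ K) (hkK : k ≤ K)
    (hC0 : C0 ≤ C1) (hC00 : 0 < C0) (hC1 : 1 ≤ C1)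
    (hdiv : ∀ n : ℕ, 1 ≤ n → (n.divisors.card : ℝ) ≤ C0 * (n : ℝ) ^ (η / K)) :
    ∀ n ∈ Icc 1 (N ^ k), (((Fintype.piFinset (fun _ : Fin k => Icc 1 N)).filter
      (fun d => ∏ i, d i = n)).card : ℝ) ≤ C1 ^ K * ((N ^ k : ℕ) : ℝ) ^ η := by
  intro n hn
  rw [mem_Icc] at hn
  have hsub : (Fintype.piFinset (fun _ : Fin k => Icc 1 N)).filter (fun d => ∏ i, d i = n)
      ⊆ Fintype.piFinset (fun _ : Fin k => n.divisors) := by
    intro d hd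
    rw [Finset.mem_filter] at hd
    rw [Fintype.mem_piFinset]
    intro j
    rw [Nat.mem_divisors]
    refine ⟨?_, by omega⟩
    rw [← hd.2]
    exact Finset.dvd_prod_of_mem d (Finset.mem_univ j)
  have h1 : ((Fintype.piFinset (fun _ : Fin k => Icc 1 N)).filter (fun d => ∏ i, d i = n)).card
      ≤ n.divisors.card ^ k := by
    have := Finset.card_le_card hsub
    rw [Fintype.card_piFinset] at this
    simpa using this
  have hn1 : (1 : ℝ) ≤ n := by exact_mod_cast hn.1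
  have hn0 : (0 : ℝ) ≤ n := by linarith
  have hKr : (0 : ℝ) < K := by exact_mod_cast hK
  have hkKr : (k : ℝ) ≤ K := by exact_mod_cast hkK
  calc (((Fintype.piFinset (fun _ : Fin k => Icc 1 N)).filter (fun d => ∏ i, d i = n)).card : ℝ)
      ≤ (n.divisors.card : ℝ) ^ k := by exact_mod_cast h1
    _ ≤ (C0 * (n : ℝ) ^ (η / K)) ^ k := pow_le_pow_left₀ (by positivity) (hdiv n hn.1) k
    _ = C0 ^ k * (n : ℝ) ^ (η / K * k) := by
        rw [mul_pow, ← Real.rpow_natCast ((n : ℝ) ^ (η / (K : ℝ))) k, ← Real.rpow_mul hn0]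
    _ ≤ C1 ^ K * ((N ^ k : ℕ) : ℝ) ^ η := by
        refine mul_le_mul ?_ ?_ (by positivity) (by positivity)
        · calc C0 ^ k ≤ C1 ^ k := pow_le_pow_left₀ hC00.le hC0 k
            _ ≤ C1 ^ K := pow_le_pow_right₀ hC1 hkK
        · calc (n : ℝ) ^ (η / K * k) ≤ (n : ℝ) ^ η := by
                apply Real.rpow_le_rpow_of_exponent_le hn1
                rw [div_mul_eq_mul_div, div_le_iff₀ hKr]
                nlinarith
            _ ≤ ((N ^ k : ℕ) : ℝ) ^ η := by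
                apply Real.rpow_le_rpow hn0 _ hη.le
                exact_mod_cast hn.2

theorem almost_all_primes (δ ε : ℝ) (hδ : 0 < δ) (hε : 0 < ε) :
    ∃ τ : ℝ, 0 < τ ∧ ∃ Q0 : ℕ, ∀ Q : ℕ, Q0 ≤ Q → ∀ N : ℕ, (Q : ℝ) ^ δ ≤ N → N ≤ Q →
      ∀ A : Finset ℕ, A ⊆ Icc 1 N → A.Nonempty → ∀ ρ : ℝ, 0 ≤ ρ →
        (N : ℝ) * (Finset.addEnergy A A : ℝ) ≤ (N : ℝ) ^ ρ * (A.card : ℝ) ^ 4 →
        ∑ p ∈ (Icc 1 Q).filter Nat.Prime,
          ({χ : DirichletCharacter ℂ p | χ ≠ 1 ∧ (A.card : ℝ) ^ (2 - τ)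
            ≤ ‖∑ a ∈ A, ∑ b ∈ A, χ ((a : ZMod p) - (b : ZMod p))‖}.ncard : ℝ)
        ≤ ((Q : ℝ) ^ 2 * N) ^ ρ * (Q : ℝ) ^ ε := by
  classical
  obtain ⟨K0, hK0⟩ := exists_nat_ge (2 / δ)
  set K : ℕ := K0 + 1 with hK
  have hK1 : 1 ≤ K := by omega
  have hKr : (0 : ℝ) < K := by exact_mod_cast hK1
  have hKδ : 2 ≤ δ * K := by
    have h1 : 2 / δ ≤ K := hK0.trans (by rw [hK]; push_cast; linarith)
    rw [div_le_iff₀ hδ] at h1
    linarith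
  set η : ℝ := ε / 12 with hη
  have hη0 : 0 < η := by positivity
  obtain ⟨C0, hC00, hdiv⟩ := Pool.Agent.H510R2.divisor_bound (η / K) (by positivity)
  set C1 : ℝ := max C0 1 with hC1
  have hC11 : 1 ≤ C1 := le_max_right _ _
  have hC01 : C0 ≤ C1 := le_max_left _ _
  set C : ℝ := 12 * 4 ^ K * C1 ^ K with hC
  have hCpos : 0 < C := by positivity
  obtain ⟨Q1, hQ1⟩ := exists_nat_ge (C ^ (2 / ε))
  refine ⟨ε / 24, by positivity, max 2 Q1, ?_⟩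
  intro Q hQ N hN1 hN2 A hA hAne ρ hρ hE
  have hQ2 : 2 ≤ Q := (le_max_left _ _).trans hQ
  have hQQ1 : Q1 ≤ Q := (le_max_right _ _).trans hQ
  have hQr2 : (2 : ℝ) ≤ Q := by exact_mod_cast hQ2
  have hQ0 : (0 : ℝ) < Q := by linarith
  have hQ1' : (1 : ℝ) ≤ Q := by linarith
  have hN1' : (1 : ℝ) < N := lt_of_lt_of_le (Real.one_lt_rpow (by linarith) hδ) hN1
  have hNn : 1 < N := by exact_mod_cast hN1'
  have hN0 : (0 : ℝ) < N := by linarith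
  have hNQ : (N : ℝ) ≤ Q := by exact_mod_cast hN2
  -- the choice of k
  have hex : ∃ k : ℕ, Q ^ 2 ≤ N ^ k := by
    refine ⟨K, ?_⟩
    have h1 : (Q : ℝ) ^ 2 ≤ (N : ℝ) ^ K := by
      calc (Q : ℝ) ^ 2 = (Q : ℝ) ^ (2 : ℝ) := by norm_cast
        _ ≤ (Q : ℝ) ^ (δ * K) := Real.rpow_le_rpow_of_exponent_le hQ1' hKδ
        _ = ((Q : ℝ) ^ δ) ^ K := by rw [Real.rpow_mul hQ0.le, Real.rpow_natCast]
        _ ≤ (N : ℝ) ^ K := pow_le_pow_left₀ (by positivity) hN1 K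
    exact_mod_cast h1
  set k := Nat.find hex with hk
  have hk1 : Q ^ 2 ≤ N ^ k := Nat.find_spec hex
  have hkK : k ≤ K := by
    refine Nat.find_min' hex ?_
    have h1 : (Q : ℝ) ^ 2 ≤ (N : ℝ) ^ K := by
      calc (Q : ℝ) ^ 2 = (Q : ℝ) ^ (2 : ℝ) := by norm_cast
        _ ≤ (Q : ℝ) ^ (δ * K) := Real.rpow_le_rpow_of_exponent_le hQ1' hKδ
        _ = ((Q : ℝ) ^ δ) ^ K := by rw [Real.rpow_mul hQ0.le, Real.rpow_natCast]
        _ ≤ (N : ℝ) ^ K := pow_le_pow_left₀ (by positivity) hN1 K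
    exact_mod_cast h1
  have hk0 : k ≠ 0 := by
    intro h
    rw [h, pow_zero] at hk1
    have : 2 ^ 2 ≤ Q ^ 2 := Nat.pow_le_pow_left hQ2 2
    omega
  have hk2 : N ^ k ≤ Q ^ 2 * N := by
    obtain ⟨j, hj⟩ := Nat.exists_eq_succ_of_ne_zero hk0
    have h1 : ¬ Q ^ 2 ≤ N ^ j := Nat.find_min hex (by omega)
    rw [hj, pow_succ]
    exact Nat.mul_le_mul_right _ (by omega)
  set X : ℝ := ((N ^ k : ℕ) : ℝ) with hX
  have hXN : X = (N : ℝ) ^ k := by rw [hX]; push_cast; rfl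
  have hXQ : (Q : ℝ) ^ 2 ≤ X := by rw [hX]; exact_mod_cast hk1
  have hXle : X ≤ (Q : ℝ) ^ 2 * N := by rw [hX]; exact_mod_cast hk2
  have hX1 : 1 ≤ X := by nlinarith
  have hX0 : 0 < X := by linarith
  -- the moment
  have hB := fact_count N k K η C0 C1 hη0 hK1 hkK hC01 hC00 hC11 hdiv
  have hmom := moment_primes Q N k (fun m => ((rr A m : ℕ) : ℝ)) (C1 ^ K * X ^ η) hB
  have hEn : (∑ m ∈ Icc 1 N, (((rr A m : ℕ) : ℝ)) ^ 2) ^ k ≤ (Finset.addEnergy A A : ℝ) ^ k := by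
    refine pow_le_pow_left₀ (Finset.sum_nonneg (fun _ _ => sq_nonneg _)) ?_ k
    exact_mod_cast sum_rr_sq A N hA
  set E : ℝ := (Finset.addEnergy A A : ℝ) with hEdef
  have hE0 : 0 ≤ E := Nat.cast_nonneg _
  have hmom2 : ∑ p ∈ (Icc 1 Q).filter Nat.Prime,
      ∑ χ ∈ (univ : Finset (DirichletCharacter ℂ p)).filter (fun χ => χ ≠ 1),
        ‖∑ m ∈ Icc 1 N, (((rr A m : ℕ) : ℝ) : ℂ) * χ (m : ZMod p)‖ ^ (2 * k)
      ≤ 12 * X * (C1 ^ K * X ^ η * E ^ k) := by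
    refine hmom.trans ?_
    have h1 : 6 * (((N ^ k : ℕ) : ℝ) + (Q : ℝ) ^ 2) ≤ 12 * X := by rw [← hX]; linarith
    exact mul_le_mul h1 (mul_le_mul_of_nonneg_left hEn (by positivity)) (by positivity) (by positivity)
  set n : ℝ := (A.card : ℝ) with hn
  have hn0 : 0 < n := by rw [hn]; exact_mod_cast hAne.card_pos
  have hnN : n ≤ N := by
    have h1 := Finset.card_le_card hA
    rw [Nat.card_Icc] at h1
    rw [hn]
    exact_mod_cast (by omega : A.card ≤ N)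
  set τ : ℝ := ε / 24 with hτ
  have hτ0 : 0 < τ := by positivity
  -- Markov
  have hmar : ∀ p ∈ (Icc 1 Q).filter Nat.Prime,
      ({χ : DirichletCharacter ℂ p | χ ≠ 1 ∧ n ^ (2 - τ)
            ≤ ‖∑ a ∈ A, ∑ b ∈ A, χ ((a : ZMod p) - (b : ZMod p))‖}.ncard : ℝ)
        * (n ^ (2 - τ) / 2) ^ (2 * k)
      ≤ ∑ χ ∈ (univ : Finset (DirichletCharacter ℂ p)).filter (fun χ => χ ≠ 1),
        ‖∑ m ∈ Icc 1 N, (((rr A m : ℕ) : ℝ) : ℂ) * χ (m : ZMod p)‖ ^ (2 * k) := by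
    intro p hp
    rw [Finset.mem_filter] at hp
    refine markov2 _ (fun χ : DirichletCharacter ℂ p =>
      ‖∑ m ∈ Icc 1 N, (((rr A m : ℕ) : ℝ) : ℂ) * χ (m : ZMod p)‖) (fun _ => norm_nonneg _) _
      (by positivity) (2 * k) _ ?_
    intro χ hχ
    rw [Set.mem_ofPred_eq] at hχ
    refine ⟨by rw [Finset.mem_filter]; exact ⟨mem_univ _, hχ.1⟩, ?_⟩
    have h1 := S_le p A N hA χ hp.2
    have h2 := hχ.2.trans h1
    linarith
  have hsum := (Finset.sum_le_sum hmar).trans hmom2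
  rw [← Finset.sum_mul] at hsum
  set Z : ℝ := ∑ p ∈ (Icc 1 Q).filter Nat.Prime,
      ({χ : DirichletCharacter ℂ p | χ ≠ 1 ∧ n ^ (2 - τ)
            ≤ ‖∑ a ∈ A, ∑ b ∈ A, χ ((a : ZMod p) - (b : ZMod p))‖}.ncard : ℝ) with hZ
  -- final computation
  have hΛ : (n ^ (2 - τ) / 2) ^ (2 * k) = (n ^ 4) ^ k / ((n ^ k) ^ (2 * τ) * 4 ^ k) := by
    rw [div_pow, Real.rpow_sub hn0, div_pow]
    have h1 : (n ^ (2 : ℝ)) = n ^ 2 := by norm_cast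
    have h2 : (n ^ τ) ^ (2 * k) = (n ^ k) ^ (2 * τ) := by
      rw [← Real.rpow_natCast (n ^ τ), ← Real.rpow_natCast n k, ← Real.rpow_mul hn0.le,
        ← Real.rpow_mul hn0.le]
      congr 1; push_cast; ring
    have h3 : (2 : ℝ) ^ (2 * k) = 4 ^ k := by
      rw [pow_mul]; norm_num
    have h4 : (n ^ 2) ^ (2 * k) = (n ^ 4) ^ k := by
      rw [← pow_mul, ← pow_mul]; congr 1; ring
    rw [h1, h2, h3, h4, div_div]
  rw [hΛ] at hsum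
  have hn4 : (0 : ℝ) < (n ^ 4) ^ k := by positivity
  have hD : (0 : ℝ) < (n ^ k) ^ (2 * τ) * 4 ^ k := by positivity
  have hZ0 : 0 ≤ Z := Finset.sum_nonneg (fun _ _ => Nat.cast_nonneg _)
  -- X * E^k ≤ X^ρ * n^(4k)
  have hXE : X * E ^ k ≤ X ^ ρ * (n ^ 4) ^ k := by
    have h1 : ((N : ℝ) * E) ^ k ≤ ((N : ℝ) ^ ρ * n ^ 4) ^ k :=
      pow_le_pow_left₀ (by positivity) hE k
    rw [mul_pow, mul_pow] at h1
    have h2 : ((N : ℝ) ^ ρ) ^ k = X ^ ρ := by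
      rw [hXN, ← Real.rpow_natCast ((N : ℝ) ^ ρ), ← Real.rpow_mul hN0.le, mul_comm,
        Real.rpow_mul hN0.le, Real.rpow_natCast]
    rw [h2, ← hXN] at h1
    exact h1
  have hZ2 : Z ≤ (X ^ (2 * τ) * 4 ^ k) * (12 * (C1 ^ K * X ^ η * X ^ ρ)) := by
    have h1 : Z * ((n ^ 4) ^ k / ((n ^ k) ^ (2 * τ) * 4 ^ k))
        ≤ (12 * (C1 ^ K * X ^ η * X ^ ρ)) * (n ^ 4) ^ k := by
      refine hsum.trans ?_
      have h2 : 12 * X * (C1 ^ K * X ^ η * E ^ k) = 12 * (C1 ^ K * X ^ η) * (X * E ^ k) := by ring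
      have h3 : 12 * (C1 ^ K * X ^ η * X ^ ρ) * (n ^ 4) ^ k
          = 12 * (C1 ^ K * X ^ η) * (X ^ ρ * (n ^ 4) ^ k) := by ring
      rw [h2, h3]
      exact mul_le_mul_of_nonneg_left hXE (by positivity)
    have h4 : Z * ((n ^ 4) ^ k / ((n ^ k) ^ (2 * τ) * 4 ^ k))
        = (Z / ((n ^ k) ^ (2 * τ) * 4 ^ k)) * (n ^ 4) ^ k := by field_simp
    rw [h4] at h1
    have h5 := le_of_mul_le_mul_right h1 hn4
    rw [div_le_iff₀ hD] at h5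
    have h6 : (n ^ k) ^ (2 * τ) ≤ X ^ (2 * τ) := by
      apply Real.rpow_le_rpow (by positivity) _ (by positivity)
      rw [hXN]
      exact pow_le_pow_left₀ hn0.le hnN k
    calc Z ≤ 12 * (C1 ^ K * X ^ η * X ^ ρ) * ((n ^ k) ^ (2 * τ) * 4 ^ k) := h5
      _ ≤ 12 * (C1 ^ K * X ^ η * X ^ ρ) * (X ^ (2 * τ) * 4 ^ k) := by gcongr
      _ = _ := by ring
  have hXρ : X ^ ρ ≤ ((Q : ℝ) ^ 2 * N) ^ ρ := Real.rpow_le_rpow hX0.le hXle hρ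
  have hXs : X ^ η * X ^ (2 * τ) ≤ (Q : ℝ) ^ (ε / 2) := by
    rw [← Real.rpow_add hX0]
    have h1 : X ≤ (Q : ℝ) ^ (3 : ℕ) := by
      calc X ≤ (Q : ℝ) ^ 2 * N := hXle
        _ ≤ (Q : ℝ) ^ 2 * Q := by gcongr
        _ = (Q : ℝ) ^ (3 : ℕ) := by ring
    calc X ^ (η + 2 * τ) ≤ ((Q : ℝ) ^ (3 : ℕ)) ^ (η + 2 * τ) :=
          Real.rpow_le_rpow hX0.le h1 (by positivity)
      _ = (Q : ℝ) ^ (ε / 2) := by
          rw [← Real.rpow_natCast (Q : ℝ) 3, ← Real.rpow_mul hQ0.le]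
          congr 1
          rw [hη, hτ]; push_cast; ring
  have hCQ : C ≤ (Q : ℝ) ^ (ε / 2) := by
    have h1 : C ^ (2 / ε) ≤ Q := hQ1.trans (by exact_mod_cast hQQ1)
    have h2 := Real.rpow_le_rpow (by positivity) h1 (by positivity : (0 : ℝ) ≤ ε / 2)
    rw [← Real.rpow_mul hCpos.le] at h2
    have h3 : 2 / ε * (ε / 2) = 1 := by field_simp
    rwa [h3, Real.rpow_one] at h2
  have h4k : (4 : ℝ) ^ k ≤ 4 ^ K := pow_le_pow_right₀ (by norm_num) hkK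
  calc Z ≤ (X ^ (2 * τ) * 4 ^ k) * (12 * (C1 ^ K * X ^ η * X ^ ρ)) := hZ2
    _ ≤ (X ^ (2 * τ) * 4 ^ K) * (12 * (C1 ^ K * X ^ η * X ^ ρ)) := by gcongr
    _ = C * (X ^ η * X ^ (2 * τ)) * X ^ ρ := by rw [hC]; ring
    _ ≤ (Q : ℝ) ^ (ε / 2) * (Q : ℝ) ^ (ε / 2) * ((Q : ℝ) ^ 2 * N) ^ ρ := by gcongr
    _ = ((Q : ℝ) ^ 2 * N) ^ ρ * (Q : ℝ) ^ ε := by
        rw [← Real.rpow_add hQ0, mul_comm]
        congr 2; ring

end Pool.Agent.H735CB.LSv
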