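import Mathlib
import Pool.Agent.Helper112.MultLS
import Pool.Agent.H510R2.Div

/-! Large sieve for difference sets of sets of integers. -/

set_option autoImplicit false

open Finset

namespace Pool.Agent.H735CB.LSv

/-- the coefficients of the k-th power -/
noncomputable def al (N k : ℕ) (c : ℕ → ℝ) (n : ℕ) : ℝ :=
  ∑ d ∈ (Fintype.piFinset (fun _ : Fin k => Icc 1 N)).filter (fun d => ∏ i, d i = n), ∏ i, c (d i)

theorem prod_mem (N k : ℕ) (d : Fin k → ℕ) (hd : d ∈ Fintype.piFinset (fun _ : Fin k => Icc 1 N)) :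
    ∏ i, d i ∈ Icc 1 (N ^ k) := by
  rw [Fintype.mem_piFinset] at hd
  rw [mem_Icc]
  constructor
  · exact Finset.one_le_prod' (fun i _ => (mem_Icc.mp (hd i)).1)
  · calc ∏ i, d i ≤ ∏ _i : Fin k, N := Finset.prod_le_prod' (fun i _ => (mem_Icc.mp (hd i)).2)
      _ = N ^ k := by simp

theorem pow_expand (N k : ℕ) (c : ℕ → ℝ) (f : ℕ) (χ : DirichletCharacter ℂ f) :
    (∑ m ∈ Icc 1 N, (c m : ℂ) * χ (m : ZMod f)) ^ k
      = ∑ n ∈ Icc 1 (N ^ k), (al N k c n : ℂ) * χ (n : ZMod f) := by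
  rw [Finset.sum_pow']
  rw [← Finset.sum_fiberwise_of_maps_to (g := fun d : Fin k → ℕ => ∏ i, d i)
    (fun d hd => prod_mem N k d hd)]
  refine Finset.sum_congr rfl (fun n _ => ?_)
  rw [al, Complex.ofReal_sum, Finset.sum_mul]
  refine Finset.sum_congr rfl (fun d hd => ?_)
  rw [Finset.mem_filter] at hd
  rw [← hd.2, Finset.prod_mul_distrib]
  push_cast
  rw [map_prod]

/-- second moment of the coefficients -/
theorem sum_al_sq (N k : ℕ) (c : ℕ → ℝ) (B : ℝ)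
    (hB : ∀ n ∈ Icc 1 (N ^ k), (((Fintype.piFinset (fun _ : Fin k => Icc 1 N)).filter
      (fun d => ∏ i, d i = n)).card : ℝ) ≤ B) :
    ∑ n ∈ Icc 1 (N ^ k), (al N k c n) ^ 2 ≤ B * (∑ m ∈ Icc 1 N, (c m) ^ 2) ^ k := by
  have h1 : ∀ n ∈ Icc 1 (N ^ k), (al N k c n) ^ 2
      ≤ B * ∑ d ∈ (Fintype.piFinset (fun _ : Fin k => Icc 1 N)).filter (fun d => ∏ i, d i = n),
        ∏ i, (c (d i)) ^ 2 := by
    intro n hn
    rw [al]
    refine (sq_sum_le_card_mul_sum_sq).trans ?_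
    have h2 : ∑ d ∈ (Fintype.piFinset (fun _ : Fin k => Icc 1 N)).filter (fun d => ∏ i, d i = n),
        (∏ i, c (d i)) ^ 2
        = ∑ d ∈ (Fintype.piFinset (fun _ : Fin k => Icc 1 N)).filter (fun d => ∏ i, d i = n),
        ∏ i, (c (d i)) ^ 2 := by
      refine Finset.sum_congr rfl (fun d _ => ?_)
      rw [Finset.prod_pow]
    rw [h2]
    refine mul_le_mul_of_nonneg_right (hB n hn) ?_
    exact Finset.sum_nonneg (fun d _ => Finset.prod_nonneg (fun i _ => sq_nonneg _))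
  refine (Finset.sum_le_sum h1).trans (le_of_eq ?_)
  rw [← Finset.mul_sum]
  congr 1
  rw [Finset.sum_fiberwise_of_maps_to (g := fun d : Fin k → ℕ => ∏ i, d i)
    (fun d hd => prod_mem N k d hd)]
  exact (Finset.sum_pow' (Icc 1 N) (fun m => (c m) ^ 2) k).symm

/-- a nonprincipal character of prime modulus is primitive -/
theorem prim_of_ne_one (p : ℕ) (hp : p.Prime) (χ : DirichletCharacter ℂ p) (hχ : χ ≠ 1) :
    χ.IsPrimitive := by
  have : NeZero p := ⟨hp.ne_zero⟩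
  rw [DirichletCharacter.isPrimitive_def]
  rcases (Nat.dvd_prime hp).mp (DirichletCharacter.conductor_dvd_level χ) with h | h
  · exfalso
    exact hχ (DirichletCharacter.eq_one_iff_conductor_eq_one.mpr h)
  · exact h

open Classical in
/-- the 2k-th moment over all nonprincipal characters of prime moduli -/
theorem moment_primes (Q N k : ℕ) (c : ℕ → ℝ) (B : ℝ)
    (hB : ∀ n ∈ Icc 1 (N ^ k), (((Fintype.piFinset (fun _ : Fin k => Icc 1 N)).filter
      (fun d => ∏ i, d i = n)).card : ℝ) ≤ B) :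
    ∑ p ∈ (Icc 1 Q).filter Nat.Prime,
      ∑ χ ∈ (univ : Finset (DirichletCharacter ℂ p)).filter (fun χ => χ ≠ 1),
        ‖∑ m ∈ Icc 1 N, (c m : ℂ) * χ (m : ZMod p)‖ ^ (2 * k)
      ≤ 6 * ((N ^ k : ℕ) + (Q : ℝ) ^ 2) * (B * (∑ m ∈ Icc 1 N, (c m) ^ 2) ^ k) := by
  classical
  have hLS := Pool.Agent.Helper112.mult_large_sieve (N ^ k) Q (fun n => (al N k c n : ℂ))
  have h1 : ∑ n ∈ Icc 1 (N ^ k), ‖((al N k c n : ℝ) : ℂ)‖ ^ 2
      ≤ B * (∑ m ∈ Icc 1 N, (c m) ^ 2) ^ k := by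
    refine le_trans (le_of_eq ?_) (sum_al_sq N k c B hB)
    refine Finset.sum_congr rfl (fun n _ => ?_)
    rw [Complex.norm_real, Real.norm_eq_abs, sq_abs]
  refine le_trans ?_ (hLS.trans (mul_le_mul_of_nonneg_left h1 (by positivity)))
  refine le_trans ?_ (Finset.sum_le_sum_of_subset_of_nonneg (Finset.filter_subset Nat.Prime (Icc 1 Q))
    (fun f _ _ => mul_nonneg (by positivity) (Finset.sum_nonneg (fun _ _ => sq_nonneg _))))
  refine Finset.sum_le_sum (fun p hp => ?_)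
  rw [Finset.mem_filter] at hp
  have hpp := hp.2
  have htot : (1 : ℝ) ≤ (p : ℝ) / (Nat.totient p : ℝ) := by
    rw [one_le_div (by exact_mod_cast Nat.totient_pos.mpr hpp.pos)]
    exact_mod_cast Nat.totient_le p
  have hnn : (0 : ℝ) ≤ ∑ χ ∈ (univ : Finset (DirichletCharacter ℂ p)).filter (fun χ => χ.IsPrimitive),
        ‖∑ n ∈ Icc 1 (N ^ k), ((al N k c n : ℝ) : ℂ) * χ (n : ZMod p)‖ ^ 2 :=
    Finset.sum_nonneg (fun _ _ => sq_nonneg _)
  refine le_trans ?_ (le_mul_of_one_le_left hnn htot)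
  have hsub : (univ : Finset (DirichletCharacter ℂ p)).filter (fun χ => χ ≠ 1)
      ⊆ (univ : Finset (DirichletCharacter ℂ p)).filter (fun χ => χ.IsPrimitive) := by
    intro χ hχ
    rw [Finset.mem_filter] at hχ ⊢
    exact ⟨mem_univ _, prim_of_ne_one p hpp χ hχ.2⟩
  refine le_trans (le_of_eq ?_) (Finset.sum_le_sum_of_subset_of_nonneg hsub (fun _ _ _ => sq_nonneg _))
  refine Finset.sum_congr rfl (fun χ _ => ?_)
  rw [← pow_expand, norm_pow, ← pow_mul, mul_comm k 2]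

/-! ### differences -/

/-- pairs in decreasing order -/
def A2 (A : Finset ℕ) : Finset (ℕ × ℕ) := (A ×ˢ A).filter (fun j => j.2 < j.1)

/-- number of representations as a difference -/
def rr (A : Finset ℕ) (m : ℕ) : ℕ := ((A2 A).filter (fun j => j.1 - j.2 = m)).card

theorem sum_rr_sq (A : Finset ℕ) (N : ℕ) (hA : A ⊆ Icc 1 N) :
    ∑ m ∈ Icc 1 N, (rr A m) ^ 2 ≤ Finset.addEnergy A A := by
  classical
  have hmaps : ∀ q ∈ ((A2 A) ×ˢ (A2 A)).filter (fun q => q.1.1 - q.1.2 = q.2.1 - q.2.2),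
      q.1.1 - q.1.2 ∈ Icc 1 N := by
    intro q hq
    rw [Finset.mem_filter, Finset.mem_product] at hq
    have h1 := hq.1.1
    rw [A2, Finset.mem_filter, Finset.mem_product] at h1
    have h2 := mem_Icc.mp (hA h1.1.1)
    rw [mem_Icc]
    omega
  have h1 := Finset.card_eq_sum_card_fiberwise hmaps
  have h2 : ∀ m ∈ Icc 1 N, ((((A2 A) ×ˢ (A2 A)).filter
      (fun q => q.1.1 - q.1.2 = q.2.1 - q.2.2)).filter (fun q => q.1.1 - q.1.2 = m)).card
      = (rr A m) ^ 2 := by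
    intro m _
    rw [rr, sq, ← Finset.card_product]
    congr 1
    ext q
    simp only [Finset.mem_filter, Finset.mem_product]
    constructor
    · rintro ⟨⟨⟨h1, h2⟩, h3⟩, h4⟩
      exact ⟨⟨h1, h4⟩, h2, h3 ▸ h4⟩
    · rintro ⟨⟨h1, h4⟩, h2, h3⟩
      exact ⟨⟨⟨h1, h2⟩, h4.trans h3.symm⟩, h4⟩
  rw [Finset.sum_congr rfl h2] at h1
  rw [← h1, Finset.addEnergy]
  refine Finset.card_le_card_of_injOn (fun q => ((q.1.1, q.1.2), (q.2.2, q.2.1))) ?_ ?_
  · intro q hq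
    simp only [Finset.coe_filter, Finset.mem_product, Set.mem_ofPred_eq, A2, Finset.mem_filter] at hq ⊢
    obtain ⟨⟨⟨⟨a1, a2⟩, a3⟩, ⟨b1, b2⟩, b3⟩, h⟩ := hq
    refine ⟨⟨⟨a1, a2⟩, b2, b1⟩, ?_⟩
    omega
  · rintro ⟨⟨a, b⟩, c, d⟩ _ ⟨⟨a', b'⟩, c', d'⟩ _ h
    simp only [Prod.mk.injEq] at h ⊢
    tauto

theorem S_le (p : ℕ) (A : Finset ℕ) (N : ℕ) (hA : A ⊆ Icc 1 N) (χ : DirichletCharacter ℂ p)
    (hp : p.Prime) :
    ‖∑ a ∈ A, ∑ b ∈ A, χ ((a : ZMod p) - (b : ZMod p))‖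
      ≤ 2 * ‖∑ m ∈ Icc 1 N, (((rr A m : ℕ) : ℝ) : ℂ) * χ (m : ZMod p)‖ := by
  classical
  have : Fact p.Prime := ⟨hp⟩
  have hT : ∑ j ∈ A2 A, χ ((j.1 : ZMod p) - (j.2 : ZMod p))
      = ∑ m ∈ Icc 1 N, (((rr A m : ℕ) : ℝ) : ℂ) * χ (m : ZMod p) := by
    have hmaps : ∀ j ∈ A2 A, j.1 - j.2 ∈ Icc 1 N := by
      intro j hj
      rw [A2, Finset.mem_filter, Finset.mem_product] at hj
      have h2 := mem_Icc.mp (hA hj.1.1)
      rw [mem_Icc]
      omega
    rw [← Finset.sum_fiberwise_of_maps_to hmaps]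
    refine Finset.sum_congr rfl (fun m _ => ?_)
    have h3 : ∀ j ∈ (A2 A).filter (fun j => j.1 - j.2 = m),
        χ ((j.1 : ZMod p) - (j.2 : ZMod p)) = χ (m : ZMod p) := by
      intro j hj
      rw [Finset.mem_filter] at hj
      obtain ⟨hj1, hj2⟩ := hj
      rw [A2, Finset.mem_filter] at hj1
      rw [← hj2, Nat.cast_sub hj1.2.le]
    rw [Finset.sum_congr rfl h3, Finset.sum_const, nsmul_eq_mul, rr]
    push_cast
    rfl
  have hS : ∑ a ∈ A, ∑ b ∈ A, χ ((a : ZMod p) - (b : ZMod p))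
      = (1 + χ (-1)) * ∑ j ∈ A2 A, χ ((j.1 : ZMod p) - (j.2 : ZMod p)) := by
    rw [← Finset.sum_product']
    have h1 := Finset.sum_filter_add_sum_filter_not (A ×ˢ A) (fun j : ℕ × ℕ => j.2 < j.1)
      (fun j => χ ((j.1 : ZMod p) - (j.2 : ZMod p)))
    rw [← h1, add_mul, one_mul]
    congr 1
    have h2 := Finset.sum_filter_add_sum_filter_not ((A ×ˢ A).filter (fun j => ¬ j.2 < j.1))
      (fun j : ℕ × ℕ => j.1 < j.2) (fun j => χ ((j.1 : ZMod p) - (j.2 : ZMod p)))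
    rw [← h2]
    have h3 : ∑ j ∈ ((A ×ˢ A).filter (fun j : ℕ × ℕ => ¬ j.2 < j.1)).filter (fun j => ¬ j.1 < j.2),
        χ ((j.1 : ZMod p) - (j.2 : ZMod p)) = 0 := by
      refine Finset.sum_eq_zero (fun j hj => ?_)
      simp only [Finset.mem_filter] at hj
      have : j.1 = j.2 := by omega
      rw [this, sub_self, MulChar.map_zero]
    rw [h3, add_zero, Finset.mul_sum]
    refine Finset.sum_nbij' (fun j => (j.2, j.1)) (fun j => (j.2, j.1)) ?_ ?_ ?_ ?_ ?_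
    · intro j hj
      simp only [A2, Finset.mem_filter, Finset.mem_product] at hj ⊢
      exact ⟨⟨hj.1.1.2, hj.1.1.1⟩, hj.2⟩
    · intro j hj
      simp only [A2, Finset.mem_filter, Finset.mem_product] at hj ⊢
      exact ⟨⟨⟨hj.1.2, hj.1.1⟩, by omega⟩, hj.2⟩
    · intro j _; rfl
    · intro j _; rfl
    · intro j _
      rw [← map_mul]
      congr 1
      ring
  rw [hS, norm_mul, hT]
  refine mul_le_mul_of_nonneg_right ?_ (norm_nonneg _)
  calc ‖1 + χ (-1)‖ ≤ ‖(1 : ℂ)‖ + ‖χ (-1)‖ := norm_add_le _ _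
    _ ≤ 1 + 1 := add_le_add (by simp) (DirichletCharacter.norm_le_one χ _)
    _ = 2 := by norm_num

end Pool.Agent.H735CB.LSv
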