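import Pool.Agent.H735CB.Single

/-! Moebius images and Markov's inequality. -/

set_option autoImplicit false

open Finset

namespace Pool.Agent.H735CB

/-- the image of `A` under the Moebius map `x ↦ 1/(x+t)` (the pole is left out) -/
def mob {p : ℕ} (A : Finset (ZMod p)) (t : ZMod p) : Finset (ZMod p) :=
  (A.filter (fun a => a + t ≠ 0)).image (fun a => (a + t)⁻¹)

variable {p : ℕ} [Fact p.Prime]

theorem mob_inj (t : ZMod p) : Function.Injective (fun a : ZMod p => (a + t)⁻¹) := by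
  intro a b h
  have h1 : a + t = b + t := inv_injective h
  exact add_right_cancel h1

theorem card_mob_le (A : Finset (ZMod p)) (t : ZMod p) : (mob A t).card ≤ A.card :=
  Finset.card_image_le.trans (Finset.card_filter_le _ _)

theorem card_mob_ge (A : Finset (ZMod p)) (t : ZMod p) : A.card ≤ (mob A t).card + 1 := by
  rw [mob, Finset.card_image_of_injective _ (mob_inj t)]
  have h : A ⊆ insert (-t) (A.filter (fun a => a + t ≠ 0)) := by
    intro a ha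
    rw [Finset.mem_insert, Finset.mem_filter]
    by_cases h : a + t = 0
    · left; exact eq_neg_of_add_eq_zero_left h
    · right; exact ⟨ha, h⟩
  exact (Finset.card_le_card h).trans (Finset.card_insert_le _ _)

theorem S_mob (χ : DirichletCharacter ℂ p) (A : Finset (ZMod p)) (t : ZMod p) :
    ∑ a ∈ mob A t, ∑ b ∈ mob A t, χ (a - b) = ∑ j ∈ A ×ˢ A, χ (Dm j t) := by
  rw [mob, Finset.sum_image (fun a _ b _ h => mob_inj t h), Finset.sum_product, Finset.sum_filter]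
  refine Finset.sum_congr rfl (fun a _ => ?_)
  rw [Finset.sum_image (fun a _ b _ h => mob_inj t h), Finset.sum_filter]
  by_cases ha : a + t = 0
  · rw [if_neg (not_not.mpr ha)]
    symm
    refine Finset.sum_eq_zero (fun b _ => ?_)
    have h0 : Dm (a, b) t = 0 := by simp [Dm, ha]
    rw [h0, MulChar.map_zero]
  · rw [if_pos ha]
    refine Finset.sum_congr rfl (fun b _ => ?_)
    by_cases hb : b + t = 0
    · rw [if_neg (not_not.mpr hb)]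
      have h0 : Dm (a, b) t = 0 := by simp [Dm, hb]
      rw [h0, MulChar.map_zero]
    · rw [if_pos hb]
      congr 1
      simp only [Dm]
      field_simp
      ring

/-- Markov's inequality -/
theorem markov {α : Type*} [Fintype α] (f : α → ℝ) (hf : ∀ x, 0 ≤ f x) (Λ M : ℝ) (hΛ : 0 ≤ Λ) (k : ℕ)
    (hM : ∑ x, f x ^ k ≤ M) (s : Set α) (hs : ∀ x ∈ s, Λ ≤ f x) :
    (s.ncard : ℝ) * Λ ^ k ≤ M := by
  classical
  refine le_trans ?_ hM
  rw [Set.ncard_eq_toFinset_card' s, ← nsmul_eq_mul, ← Finset.sum_const]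
  calc ∑ _x ∈ s.toFinset, Λ ^ k ≤ ∑ x ∈ s.toFinset, f x ^ k := by
        refine Finset.sum_le_sum (fun x hx => ?_)
        exact pow_le_pow_left₀ hΛ (hs x (by simpa using hx)) k
    _ ≤ ∑ x, f x ^ k := Finset.sum_le_sum_of_subset_of_nonneg (Finset.subset_univ _)
        (fun x _ _ => pow_nonneg (hf x) k)

/-- the choice of the parameters -/
theorem params (δ c ε : ℝ) (hδ : 0 < δ) (hc : 0 < c) (hε : 0 < ε) :
    ∃ τ : ℝ, 0 < τ ∧ τ ≤ 1 ∧ ∃ k : ℕ, 1 ≤ k ∧ ∃ P0 : ℕ, ∀ p : ℕ, 2 ≤ p → P0 ≤ p → ∀ n : ℝ, (p : ℝ) ^ δ < n →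
      n ≤ (p : ℝ) ^ 2 → ∀ N : ℝ,
      N * (n ^ (2 - τ) / 4) ^ (2 * k) ≤ p * ((2 * k : ℕ) * (n ^ 2) ^ (2 * k)
        + p * ((n ^ 2) ^ k * (((2 * k) ^ 2 : ℕ) * n ^ (2 - c)) ^ k)) →
      N ≤ (p : ℝ) ^ (1 + ε) := by
  obtain ⟨k0, hk0⟩ := exists_nat_ge (1 / (δ * c))
  set k : ℕ := k0 + 1 with hk
  have hk1 : 1 ≤ k := by omega
  have hkr : (0 : ℝ) < k := by exact_mod_cast hk1
  have hkge : 1 ≤ δ * c * k := by
    have h1 : 1 / (δ * c) ≤ k := hk0.trans (by rw [hk]; push_cast; linarith)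
    rw [div_le_iff₀ (mul_pos hδ hc)] at h1
    linarith
  set C : ℝ := 16 ^ k * ((2 * k : ℕ) + ((2 * k) ^ 2 : ℕ) ^ k) with hC
  have hCpos : 0 < C := by positivity
  obtain ⟨P0, hP0⟩ := exists_nat_ge (C ^ (2 / ε))
  refine ⟨min 1 (ε / (8 * k)), by positivity, min_le_left _ _, k, hk1, P0, ?_⟩
  intro p hp2 hP n hn1 hn2 N hN
  set τ : ℝ := min 1 (ε / (8 * k)) with hτ
  have hτ0 : 0 < τ := by positivity
  have hτk : 8 * k * τ ≤ ε := by
    have : τ ≤ ε / (8 * k) := min_le_right _ _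
    rw [le_div_iff₀ (by positivity)] at this
    linarith
  have hp0 : (0 : ℝ) < p := by positivity
  have hp1 : (1 : ℝ) ≤ p := by exact_mod_cast (by omega : 1 ≤ p)
  have hn0 : 0 < n := lt_trans (Real.rpow_pos_of_pos hp0 _) hn1
  have hn1' : 1 ≤ n := le_trans (Real.one_le_rpow hp1 hδ.le) hn1.le
  -- C ≤ p^(ε/2)
  have hCp : C ≤ (p : ℝ) ^ (ε / 2) := by
    have h1 : C ^ (2 / ε) ≤ p := hP0.trans (by exact_mod_cast hP)
    have h2 := Real.rpow_le_rpow (by positivity) h1 (by positivity : (0 : ℝ) ≤ ε / 2)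
    rw [← Real.rpow_mul hCpos.le] at h2
    have h3 : 2 / ε * (ε / 2) = 1 := by field_simp
    rwa [h3, Real.rpow_one] at h2
  -- n^(2kτ) ≤ p^(ε/2)
  have hnk : n ^ (2 * k * τ) ≤ (p : ℝ) ^ (ε / 2) := by
    have h1 : n ^ (2 * k * τ) ≤ ((p : ℝ) ^ 2) ^ (2 * k * τ) :=
      Real.rpow_le_rpow hn0.le hn2 (by positivity)
    rw [← Real.rpow_natCast (p : ℝ) 2, ← Real.rpow_mul hp0.le] at h1
    refine h1.trans (Real.rpow_le_rpow_of_exponent_le hp1 ?_)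
    push_cast
    nlinarith
  -- p * n^(-ck) ≤ 1
  have hpn : p * (n ^ (-c)) ^ k ≤ 1 := by
    have h1 : (n ^ (-c)) ^ k = n ^ (-(c * k)) := by
      rw [← Real.rpow_natCast, ← Real.rpow_mul hn0.le]
      congr 1; ring
    rw [h1, Real.rpow_neg hn0.le]
    have h2 : (p : ℝ) ≤ n ^ (c * k) := by
      calc (p : ℝ) = (p : ℝ) ^ (1 : ℝ) := (Real.rpow_one _).symm
        _ ≤ (p : ℝ) ^ (δ * (c * k)) := Real.rpow_le_rpow_of_exponent_le hp1 (by nlinarith)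
        _ = ((p : ℝ) ^ δ) ^ (c * k) := by rw [Real.rpow_mul hp0.le]
        _ ≤ n ^ (c * k) := Real.rpow_le_rpow (by positivity) hn1.le (by positivity)
    have h3 : 0 < n ^ (c * k) := Real.rpow_pos_of_pos hn0 _
    rw [← div_eq_mul_inv, div_le_one h3]
    exact h2
  -- rewrite the left side
  have hΛ : (n ^ (2 - τ) / 4) ^ (2 * k) = (n ^ 2) ^ (2 * k) / (n ^ (2 * k * τ) * 16 ^ k) := by
    rw [div_pow, Real.rpow_sub hn0, div_pow]
    have h1 : (n ^ (2 : ℝ)) = n ^ 2 := by norm_cast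
    have h2 : (n ^ τ) ^ (2 * k) = n ^ (2 * k * τ) := by
      rw [← Real.rpow_natCast, ← Real.rpow_mul hn0.le]
      congr 1; push_cast; ring
    have h3 : (4 : ℝ) ^ (2 * k) = 16 ^ k := by
      rw [pow_mul]; norm_num
    rw [h1, h2, h3, div_div]
  have hrhs : (n ^ 2) ^ k * (((2 * k) ^ 2 : ℕ) * n ^ (2 - c)) ^ k
      = (n ^ 2) ^ (2 * k) * ((((2 * k) ^ 2 : ℕ) : ℝ) ^ k * (n ^ (-c)) ^ k) := by
    have h1 : n ^ (2 - c) = n ^ 2 * n ^ (-c) := by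
      rw [sub_eq_add_neg, Real.rpow_add hn0]
      norm_cast
    rw [h1, mul_pow, mul_pow, two_mul, pow_add]
    ring
  rw [hΛ, hrhs] at hN
  have hX : (0 : ℝ) < (n ^ 2) ^ (2 * k) := by positivity
  have hE : (0 : ℝ) < n ^ (2 * k * τ) * 16 ^ k := by positivity
  have hN2 : N ≤ (n ^ (2 * k * τ) * 16 ^ k) * (p * ((2 * k : ℕ)
      + p * ((((2 * k) ^ 2 : ℕ) : ℝ) ^ k * (n ^ (-c)) ^ k))) := by
    have h1 : N * ((n ^ 2) ^ (2 * k) / (n ^ (2 * k * τ) * 16 ^ k))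
        = (N / (n ^ (2 * k * τ) * 16 ^ k)) * (n ^ 2) ^ (2 * k) := by
      field_simp
    have h2 : (p : ℝ) * ((2 * k : ℕ) * (n ^ 2) ^ (2 * k)
        + p * ((n ^ 2) ^ (2 * k) * ((((2 * k) ^ 2 : ℕ) : ℝ) ^ k * (n ^ (-c)) ^ k)))
        = (p * ((2 * k : ℕ) + p * ((((2 * k) ^ 2 : ℕ) : ℝ) ^ k * (n ^ (-c)) ^ k)))
          * (n ^ 2) ^ (2 * k) := by ring
    rw [h1, h2] at hN
    have h3 := le_of_mul_le_mul_right hN hX
    rw [div_le_iff₀ hE] at h3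
    linarith
  have hin : (2 * k : ℕ) + p * ((((2 * k) ^ 2 : ℕ) : ℝ) ^ k * (n ^ (-c)) ^ k)
      ≤ (2 * k : ℕ) + (((2 * k) ^ 2 : ℕ) : ℝ) ^ k := by
    have h1 : p * ((((2 * k) ^ 2 : ℕ) : ℝ) ^ k * (n ^ (-c)) ^ k)
        = (((2 * k) ^ 2 : ℕ) : ℝ) ^ k * (p * (n ^ (-c)) ^ k) := by ring
    rw [h1]
    have h2 : (0 : ℝ) ≤ (((2 * k) ^ 2 : ℕ) : ℝ) ^ k := by positivity
    have h3 := mul_le_mul_of_nonneg_left hpn h2
    linarith
  calc N ≤ (n ^ (2 * k * τ) * 16 ^ k) * (p * ((2 * k : ℕ)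
      + p * ((((2 * k) ^ 2 : ℕ) : ℝ) ^ k * (n ^ (-c)) ^ k))) := hN2
    _ ≤ ((p : ℝ) ^ (ε / 2) * 16 ^ k) * (p * ((2 * k : ℕ) + (((2 * k) ^ 2 : ℕ) : ℝ) ^ k)) := by
        gcongr
    _ = (p : ℝ) ^ (ε / 2) * p * C := by rw [hC]; ring
    _ ≤ (p : ℝ) ^ (ε / 2) * p * (p : ℝ) ^ (ε / 2) := by gcongr
    _ = (p : ℝ) ^ (1 + ε) := by
        have : (p : ℝ) ^ (ε / 2) * p * (p : ℝ) ^ (ε / 2)
            = (p : ℝ) ^ (ε / 2) * (p : ℝ) ^ (1 : ℝ) * (p : ℝ) ^ (ε / 2) := by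
          rw [Real.rpow_one]
        rw [this, ← Real.rpow_add hp0, ← Real.rpow_add hp0]
        congr 1; ring

end Pool.Agent.H735CB
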