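import Mathlib

/-! Moments over all Dirichlet characters modulo a prime and over a parameter. -/

set_option autoImplicit false

open Finset

namespace Pool.Agent.H735CB

variable {p : ℕ} [Fact p.Prime]

/-- orthogonality of Dirichlet characters -/
theorem sum_char (u v : ZMod p) :
    ∑ χ : DirichletCharacter ℂ p, χ u * (starRingEnd ℂ) (χ v)
      = if u = v ∧ u ≠ 0 then ((p : ℂ) - 1) else 0 := by
  have hstar : ∀ χ : DirichletCharacter ℂ p, (starRingEnd ℂ) (χ v) = χ v⁻¹ := by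
    intro χ
    have h := MulChar.star_apply' χ v
    rw [MulChar.inv_apply'] at h
    exact h
  by_cases hv : v = 0
  · subst hv
    have : ∀ χ : DirichletCharacter ℂ p, χ u * (starRingEnd ℂ) (χ 0) = 0 := by
      intro χ
      rw [MulChar.map_zero]; simp
    rw [Finset.sum_congr rfl (fun χ _ => this χ)]
    simp only [sum_const_zero]
    rw [if_neg]
    rintro ⟨h1, h2⟩
    exact h2 h1
  · have h := DirichletCharacter.sum_char_inv_mul_char_eq ℂ (n := p) (a := v)
      (isUnit_iff_ne_zero.mpr hv) u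
    have h2 : ∑ χ : DirichletCharacter ℂ p, χ u * (starRingEnd ℂ) (χ v)
        = ∑ χ : DirichletCharacter ℂ p, χ v⁻¹ * χ u := by
      refine Finset.sum_congr rfl (fun χ _ => ?_)
      rw [hstar χ, mul_comm]
    rw [h2, h, Nat.totient_prime (Fact.out : p.Prime)]
    have hp1 : 1 ≤ p := (Fact.out : p.Prime).one_lt.le
    by_cases huv : u = v
    · subst huv
      simp [hv, Nat.cast_sub hp1]
    · rw [if_neg (fun h => huv h.symm), if_neg (fun h => huv h.1)]

/-- k-th power of a character sum -/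
theorem sum_pow_char {J : Type*} [DecidableEq J] (s : Finset J) (D : J → ZMod p) (k : ℕ)
    (χ : DirichletCharacter ℂ p) :
    (∑ j ∈ s, χ (D j)) ^ k = ∑ x ∈ Fintype.piFinset (fun _ : Fin k => s), χ (∏ i, D (x i)) := by
  rw [Finset.sum_pow']
  refine Finset.sum_congr rfl (fun x _ => ?_)
  rw [map_prod]

/-- the moment over the characters counts solutions -/
theorem moment_one {J : Type*} [DecidableEq J] (s : Finset J) (D : J → ZMod p) (k : ℕ) :
    ∑ χ : DirichletCharacter ℂ p, ‖∑ j ∈ s, χ (D j)‖ ^ (2 * k)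
      = ((p : ℝ) - 1) * (((Fintype.piFinset (fun _ : Fin k => s)) ×ˢ
          (Fintype.piFinset (fun _ : Fin k => s))).filter
          (fun q => ∏ i, D (q.1 i) = ∏ i, D (q.2 i) ∧ ∏ i, D (q.1 i) ≠ 0)).card := by
  have h1 : ∀ χ : DirichletCharacter ℂ p, ((‖∑ j ∈ s, χ (D j)‖ ^ (2 * k) : ℝ) : ℂ)
      = ∑ q ∈ (Fintype.piFinset (fun _ : Fin k => s)) ×ˢ (Fintype.piFinset (fun _ : Fin k => s)),
        χ (∏ i, D (q.1 i)) * (starRingEnd ℂ) (χ (∏ i, D (q.2 i))) := by
    intro χ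
    have h2 : ((‖∑ j ∈ s, χ (D j)‖ ^ (2 * k) : ℝ) : ℂ)
        = (∑ j ∈ s, χ (D j)) ^ k * (starRingEnd ℂ) ((∑ j ∈ s, χ (D j)) ^ k) := by
      rw [Complex.mul_conj, Complex.normSq_eq_norm_sq, norm_pow]
      norm_cast
      ring
    rw [h2, sum_pow_char, map_sum, Finset.sum_mul_sum, ← Finset.sum_product']
  have h3 : ((∑ χ : DirichletCharacter ℂ p, ‖∑ j ∈ s, χ (D j)‖ ^ (2 * k) : ℝ) : ℂ)
      = (((p : ℝ) - 1) * (((Fintype.piFinset (fun _ : Fin k => s)) ×ˢ
          (Fintype.piFinset (fun _ : Fin k => s))).filter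
          (fun q => ∏ i, D (q.1 i) = ∏ i, D (q.2 i) ∧ ∏ i, D (q.1 i) ≠ 0)).card : ℝ) := by
    rw [Complex.ofReal_sum, Finset.sum_congr rfl (fun χ _ => h1 χ), Finset.sum_comm]
    rw [Finset.sum_congr rfl (fun q _ => sum_char _ _), ← Finset.sum_filter, Finset.sum_const]
    push_cast
    rw [nsmul_eq_mul, mul_comm]
  exact_mod_cast h3

end Pool.Agent.H735CB
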