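import Pool.Agent.H735CB.Count

/-! Planar projections: the count. -/

set_option autoImplicit false

open Finset

namespace Pool.Agent.H735CB

variable {p : ℕ} [Fact p.Prime]

/-- the difference of the projections of two points of the plane -/
def Dp (j : (ZMod p × ZMod p) × (ZMod p × ZMod p)) (t : ZMod p) : ZMod p :=
  (j.1.1 - j.2.1) + t * (j.1.2 - j.2.2)

/-- parallel pairs of points -/
def Par (i j : (ZMod p × ZMod p) × (ZMod p × ZMod p)) : Prop :=
  (i.1.1 - i.2.1) * (j.1.2 - j.2.2) = (i.1.2 - i.2.2) * (j.1.1 - j.2.1)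

instance (i j : (ZMod p × ZMod p) × (ZMod p × ZMod p)) : Decidable (Par i j) := by
  unfold Par; infer_instance

/-- the pairs of `P` parallel to one of the nondegenerate pairs `x i` -/
def Yp (P : Finset (ZMod p × ZMod p)) (k : ℕ) (x : Fin k → (ZMod p × ZMod p) × (ZMod p × ZMod p)) :
    Finset ((ZMod p × ZMod p) × (ZMod p × ZMod p)) :=
  (P ×ˢ P).filter (fun j => ∃ i, (x i).1 ≠ (x i).2 ∧ Par j (x i))

/-- number of pairs of points parallel to a given direction -/
theorem card_par (P : Finset (ZMod p × ZMod p)) (L : ℕ)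
    (hL : ∀ α β γ : ZMod p, (α ≠ 0 ∨ β ≠ 0) →
      (P.filter (fun z => α * z.1 + β * z.2 = γ)).card ≤ L)
    (x : (ZMod p × ZMod p) × (ZMod p × ZMod p)) (hx : x.1 ≠ x.2) :
    ((P ×ˢ P).filter (fun j => Par j x)).card ≤ P.card * L := by
  rw [Finset.card_filter, Finset.sum_product]
  have h : ∀ q ∈ P, ∑ r ∈ P, (if Par (q, r) x then 1 else 0) ≤ L := by
    intro q _
    rw [← Finset.card_filter]
    refine le_trans (Finset.card_le_card ?_)
      (hL (x.1.2 - x.2.2) (-(x.1.1 - x.2.1)) ((x.1.2 - x.2.2) * q.1 + (-(x.1.1 - x.2.1)) * q.2) ?_)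
    · intro r hr
      rw [Finset.mem_filter] at hr ⊢
      refine ⟨hr.1, ?_⟩
      have h2 := hr.2
      simp only [Par] at h2
      linear_combination -h2
    · by_contra hcon
      push Not at hcon
      apply hx
      apply Prod.ext
      · exact sub_eq_zero.mp (neg_eq_zero.mp hcon.2)
      · exact sub_eq_zero.mp hcon.1
  refine (Finset.sum_le_sum h).trans ?_
  simp

theorem card_Yp (P : Finset (ZMod p × ZMod p)) (L : ℕ)
    (hL : ∀ α β γ : ZMod p, (α ≠ 0 ∨ β ≠ 0) →
      (P.filter (fun z => α * z.1 + β * z.2 = γ)).card ≤ L)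
    (k : ℕ) (x : Fin k → (ZMod p × ZMod p) × (ZMod p × ZMod p)) :
    (Yp P k x).card ≤ k * (P.card * L) := by
  classical
  have hsub : Yp P k x ⊆ (univ : Finset (Fin k)).biUnion (fun i =>
      if (x i).1 ≠ (x i).2 then (P ×ˢ P).filter (fun j => Par j (x i)) else ∅) := by
    intro j hj
    simp only [Yp, Finset.mem_filter] at hj
    obtain ⟨hjP, i, hi1, hi2⟩ := hj
    rw [Finset.mem_biUnion]
    refine ⟨i, mem_univ _, ?_⟩
    rw [if_pos hi1, Finset.mem_filter]
    exact ⟨hjP, hi2⟩
  refine (Finset.card_le_card hsub).trans (Finset.card_biUnion_le.trans ?_)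
  refine (Finset.sum_le_sum (g := fun _ => P.card * L) (fun i _ => ?_)).trans ?_
  · by_cases h : (x i).1 ≠ (x i).2
    · rw [if_pos h]; exact card_par P L hL (x i) h
    · rw [if_neg h]; simp
  · simp

open Polynomial in
theorem count_proj (P : Finset (ZMod p × ZMod p)) (k : ℕ)
    (x y : Fin k → (ZMod p × ZMod p) × (ZMod p × ZMod p)) (hy : ∀ i, y i ∈ P ×ˢ P) :
    (univ.filter (fun t : ZMod p => ∏ i, Dp (x i) t = ∏ i, Dp (y i) t ∧ ∏ i, Dp (x i) t ≠ 0)).card
      ≤ 2 * k
    ∨ ∀ i, y i ∈ Yp P k x := by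
  classical
  let Q : (Fin k → (ZMod p × ZMod p) × (ZMod p × ZMod p)) → (ZMod p)[X] :=
    fun z => ∏ i, (C ((z i).1.1 - (z i).2.1) + X * C ((z i).1.2 - (z i).2.2))
  have hlin : ∀ a b : ZMod p, (C a + X * C b : (ZMod p)[X]).natDegree ≤ 1 := by
    intro a b
    refine (Polynomial.natDegree_add_le _ _).trans (max_le ?_ ?_)
    · simp
    · refine (Polynomial.natDegree_mul_le).trans ?_
      simp only [Polynomial.natDegree_C, add_zero]
      exact Polynomial.natDegree_X_le
  have hQdeg : ∀ z, (Q z).natDegree ≤ k := by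
    intro z
    refine (Polynomial.natDegree_prod_le _ _).trans ?_
    refine (Finset.sum_le_sum (g := fun _ => 1) (fun i _ => hlin _ _)).trans ?_
    simp
  have hQeval : ∀ z (t : ZMod p), (Q z).eval t = ∏ i, Dp (z i) t := by
    intro z t
    simp only [Q, Polynomial.eval_prod, Dp]
    refine Finset.prod_congr rfl (fun i _ => ?_)
    simp
  have hQcoeff : ∀ z, (Q z).coeff k = ∏ i, ((z i).1.2 - (z i).2.2) := by
    intro z
    have h := Polynomial.coeff_prod_of_natDegree_le (s := (univ : Finset (Fin k)))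
      (f := fun i => (C ((z i).1.1 - (z i).2.1) + X * C ((z i).1.2 - (z i).2.2) : (ZMod p)[X]))
      (n := 1) (fun i _ => hlin _ _)
    simp only [Finset.card_univ, Fintype.card_fin, mul_one] at h
    simp only [Q]
    rw [h]
    refine Finset.prod_congr rfl (fun i _ => ?_)
    have h0 : (X * C ((z i).1.2 - (z i).2.2) : (ZMod p)[X]).coeff 1 = (z i).1.2 - (z i).2.2 := by
      have := Polynomial.coeff_X_mul (C ((z i).1.2 - (z i).2.2) : (ZMod p)[X]) 0
      simpa using this
    rw [Polynomial.coeff_add, h0]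
    simp [Polynomial.coeff_C]
  by_cases hG : Q x - Q y = 0
  · have hxy : Q x = Q y := sub_eq_zero.mp hG
    by_cases hex : ∃ t : ZMod p, (∏ i, Dp (x i) t = ∏ i, Dp (y i) t ∧ ∏ i, Dp (x i) t ≠ 0)
    · right
      obtain ⟨t0, ht0, ht1⟩ := hex
      have hxne : ∀ j, (x j).1 ≠ (x j).2 := by
        intro j hj
        apply ht1
        apply Finset.prod_eq_zero (mem_univ j)
        simp [Dp, hj]
      intro i
      simp only [Yp, Finset.mem_filter]
      refine ⟨hy i, ?_⟩
      by_cases hv : (y i).1.2 - (y i).2.2 = 0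
      · have h1 : (Q x).coeff k = 0 := by
          rw [hxy, hQcoeff]
          exact Finset.prod_eq_zero (mem_univ i) hv
        rw [hQcoeff, Finset.prod_eq_zero_iff] at h1
        obtain ⟨j, -, hj⟩ := h1
        refine ⟨j, hxne j, ?_⟩
        simp only [Par]
        rw [hv, hj]; ring
      · have h1 : (Q x).eval (-((y i).1.1 - (y i).2.1) * ((y i).1.2 - (y i).2.2)⁻¹) = 0 := by
          rw [hxy, hQeval]
          apply Finset.prod_eq_zero (mem_univ i)
          simp only [Dp]
          field_simp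
          ring
        rw [hQeval, Finset.prod_eq_zero_iff] at h1
        obtain ⟨j, -, hj⟩ := h1
        refine ⟨j, hxne j, ?_⟩
        simp only [Dp] at hj
        simp only [Par]
        field_simp at hj
        linear_combination -hj
    · left
      rw [Finset.filter_eq_empty_iff.mpr (fun t _ ht => hex ⟨t, ht⟩)]
      simp
  · left
    have hsub : (univ.filter (fun t : ZMod p => ∏ i, Dp (x i) t = ∏ i, Dp (y i) t ∧
        ∏ i, Dp (x i) t ≠ 0)) ⊆ (Q x - Q y).roots.toFinset := by
      intro t ht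
      rw [Multiset.mem_toFinset, Polynomial.mem_roots hG]
      have h := (Finset.mem_filter.mp ht).2.1
      rw [Polynomial.IsRoot.def, Polynomial.eval_sub, hQeval, hQeval, h, sub_self]
    refine (Finset.card_le_card hsub).trans ((Multiset.toFinset_card_le _).trans
      ((Polynomial.card_roots' _).trans ?_))
    refine (Polynomial.natDegree_sub_le _ _).trans (max_le ?_ ?_)
    · exact (hQdeg _).trans (by omega)
    · exact (hQdeg _).trans (by omega)

end Pool.Agent.H735CB
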