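import Pool.Agent.H735CB.Proj

/-! A single character: second moments over the parameter. -/

set_option autoImplicit false

open Finset

namespace Pool.Agent.H735CB

variable {p : ℕ} [Fact p.Prime]

theorem conj_char (χ : DirichletCharacter ℂ p) (v : ZMod p) :
    (starRingEnd ℂ) (χ v) = χ⁻¹ v := by
  have h := MulChar.star_apply' χ v
  exact h

theorem norm_char_le (χ : DirichletCharacter ℂ p) (v : ZMod p) : ‖χ v‖ ≤ 1 :=
  DirichletCharacter.norm_le_one χ v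

theorem char_mul_conj (χ : DirichletCharacter ℂ p) (v : ZMod p) :
    χ v * (starRingEnd ℂ) (χ v) = if v = 0 then 0 else 1 := by
  by_cases hv : v = 0
  · subst hv; rw [MulChar.map_zero]; simp
  · rw [if_neg hv, conj_char, ← MulChar.mul_apply, mul_inv_cancel,
      MulChar.one_apply (isUnit_iff_ne_zero.mpr hv)]

theorem orth (χ : DirichletCharacter ℂ p) (hχ : χ ≠ 1) (b b' : ZMod p) :
    ∑ t : ZMod p, χ (t + b) * (starRingEnd ℂ) (χ (t + b'))
      = (if b = b' then (p : ℂ) else 0) - 1 := by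
  by_cases hb : b = b'
  · subst hb
    rw [if_pos rfl]
    have h := Equiv.sum_comp (Equiv.addRight b)
      (fun t : ZMod p => χ t * (starRingEnd ℂ) (χ t))
    simp only [Equiv.coe_addRight] at h
    rw [h]
    have h2 : ∀ t : ZMod p, χ t * (starRingEnd ℂ) (χ t) = 1 - (if t = 0 then (1 : ℂ) else 0) := by
      intro t; rw [char_mul_conj]; split_ifs <;> simp
    rw [Finset.sum_congr rfl (fun t _ => h2 t), Finset.sum_sub_distrib]
    simp [ZMod.card]
  · rw [if_neg hb, zero_sub]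
    have hd : b - b' ≠ 0 := sub_ne_zero.mpr hb
    have h := Equiv.sum_comp ((Equiv.mulLeft₀ (b - b') hd).trans (Equiv.addRight (-b)))
      (fun t : ZMod p => χ (t + b) * (starRingEnd ℂ) (χ (t + b')))
    rw [← h]
    have h2 : ∀ z : ZMod p, χ (((Equiv.mulLeft₀ (b - b') hd).trans (Equiv.addRight (-b))) z + b)
        * (starRingEnd ℂ) (χ (((Equiv.mulLeft₀ (b - b') hd).trans (Equiv.addRight (-b))) z + b'))
        = χ⁻¹ (-1) * (χ z * χ⁻¹ (1 - z)) := by
      intro z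
      rw [conj_char]
      have e1 : ((Equiv.mulLeft₀ (b - b') hd).trans (Equiv.addRight (-b))) z + b = (b - b') * z := by
        simp
      have e2 : ((Equiv.mulLeft₀ (b - b') hd).trans (Equiv.addRight (-b))) z + b'
          = (b - b') * ((-1) * (1 - z)) := by
        simp; ring
      rw [e1, e2, map_mul, map_mul, map_mul]
      have h3 : χ (b - b') * χ⁻¹ (b - b') = 1 := by
        rw [← MulChar.mul_apply, mul_inv_cancel, MulChar.one_apply (isUnit_iff_ne_zero.mpr hd)]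
      linear_combination (χ z * χ⁻¹ (-1) * χ⁻¹ (1 - z)) * h3
    rw [Finset.sum_congr rfl (fun z _ => h2 z), ← Finset.mul_sum]
    have h4 : ∑ z : ZMod p, χ z * χ⁻¹ (1 - z) = - χ (-1) := by
      have := jacobiSum_nontrivial_inv hχ
      rw [jacobiSum] at this
      exact this
    rw [h4]
    have h5 : χ (-1) * χ⁻¹ (-1) = 1 := by
      rw [← MulChar.mul_apply, mul_inv_cancel,
        MulChar.one_apply (isUnit_iff_ne_zero.mpr (neg_ne_zero.mpr one_ne_zero))]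
    linear_combination -h5

/-- the dual large sieve type inequality -/
theorem dual (χ : DirichletCharacter ℂ p) (hχ : χ ≠ 1) (A : Finset (ZMod p)) (c : ZMod p → ℂ) :
    ∑ t : ZMod p, ‖∑ b ∈ A, c b * χ (t + b)‖ ^ 2 ≤ p * ∑ b ∈ A, ‖c b‖ ^ 2 := by
  have h1 : ∀ t : ZMod p, ((‖∑ b ∈ A, c b * χ (t + b)‖ ^ 2 : ℝ) : ℂ)
      = ∑ b ∈ A, ∑ b' ∈ A, (c b * (starRingEnd ℂ) (c b')) *
          (χ (t + b) * (starRingEnd ℂ) (χ (t + b'))) := by
    intro t
    have h2 : ((‖∑ b ∈ A, c b * χ (t + b)‖ ^ 2 : ℝ) : ℂ)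
        = (∑ b ∈ A, c b * χ (t + b)) * (starRingEnd ℂ) (∑ b ∈ A, c b * χ (t + b)) := by
      rw [Complex.mul_conj, Complex.normSq_eq_norm_sq]
    rw [h2, map_sum, Finset.sum_mul_sum]
    refine Finset.sum_congr rfl (fun b _ => Finset.sum_congr rfl (fun b' _ => ?_))
    rw [map_mul]; ring
  have h3 : ((∑ t : ZMod p, ‖∑ b ∈ A, c b * χ (t + b)‖ ^ 2 : ℝ) : ℂ)
      = ((p * ∑ b ∈ A, ‖c b‖ ^ 2 - ‖∑ b ∈ A, c b‖ ^ 2 : ℝ) : ℂ) := by
    rw [Complex.ofReal_sum, Finset.sum_congr rfl (fun t _ => h1 t), Finset.sum_comm]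
    have h4 : ∀ b ∈ A, ∑ t : ZMod p, ∑ b' ∈ A, (c b * (starRingEnd ℂ) (c b')) *
          (χ (t + b) * (starRingEnd ℂ) (χ (t + b')))
        = p * (c b * (starRingEnd ℂ) (c b)) - c b * (starRingEnd ℂ) (∑ b' ∈ A, c b') := by
      intro b hb
      rw [Finset.sum_comm]
      have h5 : ∀ b' ∈ A, ∑ t : ZMod p, (c b * (starRingEnd ℂ) (c b')) *
          (χ (t + b) * (starRingEnd ℂ) (χ (t + b')))
          = (if b = b' then (c b * (starRingEnd ℂ) (c b')) * p else 0)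
            - (c b * (starRingEnd ℂ) (c b')) := by
        intro b' _
        rw [← Finset.mul_sum, orth χ hχ b b']
        split_ifs <;> ring
      rw [Finset.sum_congr rfl h5, Finset.sum_sub_distrib, Finset.sum_ite_eq, if_pos hb,
        ← Finset.mul_sum, ← map_sum]
      ring
    rw [Finset.sum_congr rfl h4, Finset.sum_sub_distrib, ← Finset.mul_sum, ← Finset.sum_mul]
    push_cast
    congr 1
    · congr 1
      refine Finset.sum_congr rfl (fun b _ => ?_)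
      rw [Complex.mul_conj, Complex.normSq_eq_norm_sq]; push_cast; rfl
    · rw [Complex.mul_conj, Complex.normSq_eq_norm_sq]; push_cast; rfl
  have h6 : ∑ t : ZMod p, ‖∑ b ∈ A, c b * χ (t + b)‖ ^ 2
      = p * ∑ b ∈ A, ‖c b‖ ^ 2 - ‖∑ b ∈ A, c b‖ ^ 2 := by exact_mod_cast h3
  rw [h6]
  have := sq_nonneg ‖∑ b ∈ A, c b‖
  linarith

/-- second moment for Moebius images -/
theorem second_mob (χ : DirichletCharacter ℂ p) (hχ : χ ≠ 1) (A : Finset (ZMod p)) :
    ∑ t : ZMod p, ‖∑ j ∈ A ×ˢ A, χ (Dm j t)‖ ^ 2 ≤ p * (A.card : ℝ) ^ 3 := by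
  have hχ' : χ⁻¹ ≠ 1 := inv_ne_one.mpr hχ
  have h1 : ∀ t : ZMod p, ‖∑ j ∈ A ×ˢ A, χ (Dm j t)‖ ^ 2
      ≤ A.card * ∑ a ∈ A, ‖∑ b ∈ A, χ (b - a) * χ⁻¹ (t + b)‖ ^ 2 := by
    intro t
    have h2 : ∑ j ∈ A ×ˢ A, χ (Dm j t)
        = ∑ a ∈ A, χ⁻¹ (a + t) * ∑ b ∈ A, χ (b - a) * χ⁻¹ (t + b) := by
      rw [Finset.sum_product]
      refine Finset.sum_congr rfl (fun a _ => ?_)
      rw [Finset.mul_sum]
      refine Finset.sum_congr rfl (fun b _ => ?_)
      simp only [Dm]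
      rw [map_mul, map_mul, MulChar.inv_apply', MulChar.inv_apply', add_comm t b]
      ring
    rw [h2]
    have h3 : ‖∑ a ∈ A, χ⁻¹ (a + t) * ∑ b ∈ A, χ (b - a) * χ⁻¹ (t + b)‖
        ≤ ∑ a ∈ A, ‖∑ b ∈ A, χ (b - a) * χ⁻¹ (t + b)‖ := by
      refine (norm_sum_le _ _).trans (Finset.sum_le_sum (fun a _ => ?_))
      rw [norm_mul]
      exact mul_le_of_le_one_left (norm_nonneg _) (norm_char_le _ _)
    calc ‖∑ a ∈ A, χ⁻¹ (a + t) * ∑ b ∈ A, χ (b - a) * χ⁻¹ (t + b)‖ ^ 2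
        ≤ (∑ a ∈ A, ‖∑ b ∈ A, χ (b - a) * χ⁻¹ (t + b)‖) ^ 2 := by
          gcongr
      _ ≤ _ := sq_sum_le_card_mul_sum_sq
  refine (Finset.sum_le_sum (fun t _ => h1 t)).trans ?_
  rw [← Finset.mul_sum, Finset.sum_comm]
  have h4 : ∀ a ∈ A, ∑ t : ZMod p, ‖∑ b ∈ A, χ (b - a) * χ⁻¹ (t + b)‖ ^ 2 ≤ p * (A.card : ℝ) := by
    intro a _
    refine (dual χ⁻¹ hχ' A (fun b => χ (b - a))).trans ?_
    refine mul_le_mul_of_nonneg_left ?_ (Nat.cast_nonneg _)
    refine (Finset.sum_le_sum (g := fun _ => (1 : ℝ)) (fun b _ => ?_)).trans ?_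
    · exact pow_le_one₀ (norm_nonneg _) (norm_char_le _ _)
    · simp
  have h5 := Finset.sum_le_sum h4
  rw [Finset.sum_const, nsmul_eq_mul] at h5
  calc (A.card : ℝ) * ∑ a ∈ A, ∑ t : ZMod p, ‖∑ b ∈ A, χ (b - a) * χ⁻¹ (t + b)‖ ^ 2
      ≤ (A.card : ℝ) * ((A.card : ℝ) * (p * (A.card : ℝ))) :=
        mul_le_mul_of_nonneg_left h5 (Nat.cast_nonneg _)
    _ = _ := by ring

/-- sums of a nonprincipal character over a line -/
theorem sum_line (χ : DirichletCharacter ℂ p) (hχ : χ ≠ 1) (u v : ZMod p) (hv : v ≠ 0) :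
    ∑ t : ZMod p, χ (u + t * v) = 0 := by
  have h := Equiv.sum_comp ((Equiv.mulRight₀ v hv).trans (Equiv.addLeft u))
    (fun t : ZMod p => χ t)
  simp only [Equiv.trans_apply, Equiv.coe_addLeft] at h
  have h2 : ∑ t : ZMod p, χ t = 0 := MulChar.sum_eq_zero_of_ne_one hχ
  rw [h2] at h
  exact h

theorem pair_bound (χ : DirichletCharacter ℂ p) (hχ : χ ≠ 1)
    (j j' : (ZMod p × ZMod p) × (ZMod p × ZMod p)) (hj : ¬ Par j' j) :
    ‖∑ t : ZMod p, χ (Dp j t) * (starRingEnd ℂ) (χ (Dp j' t))‖ ≤ 1 := by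
  simp only [Par, Dp] at hj ⊢
  set u := j.1.1 - j.2.1
  set v := j.1.2 - j.2.2
  set u' := j'.1.1 - j'.2.1
  set v' := j'.1.2 - j'.2.2
  by_cases hv : v = 0
  · have hv' : v' ≠ 0 := by
      intro h; apply hj; rw [h, hv]; ring
    have h1 : ∑ t : ZMod p, χ (u + t * v) * (starRingEnd ℂ) (χ (u' + t * v'))
        = χ u * (starRingEnd ℂ) (∑ t : ZMod p, χ (u' + t * v')) := by
      rw [map_sum, Finset.mul_sum]
      refine Finset.sum_congr rfl (fun t _ => ?_)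
      rw [hv, mul_zero, add_zero]
    rw [h1, sum_line χ hχ u' v' hv']
    simp
  · by_cases hv' : v' = 0
    · have h1 : ∑ t : ZMod p, χ (u + t * v) * (starRingEnd ℂ) (χ (u' + t * v'))
          = (∑ t : ZMod p, χ (u + t * v)) * (starRingEnd ℂ) (χ u') := by
        rw [Finset.sum_mul]
        refine Finset.sum_congr rfl (fun t _ => ?_)
        rw [hv', mul_zero, add_zero]
      rw [h1, sum_line χ hχ u v hv]
      simp
    · have h1 : ∑ t : ZMod p, χ (u + t * v) * (starRingEnd ℂ) (χ (u' + t * v'))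
          = (χ v * (starRingEnd ℂ) (χ v')) *
            ∑ t : ZMod p, χ (t + u * v⁻¹) * (starRingEnd ℂ) (χ (t + u' * v'⁻¹)) := by
        rw [Finset.mul_sum]
        refine Finset.sum_congr rfl (fun t _ => ?_)
        have e1 : u + t * v = v * (t + u * v⁻¹) := by field_simp; ring
        have e2 : u' + t * v' = v' * (t + u' * v'⁻¹) := by field_simp; ring
        rw [e1, e2, map_mul, map_mul, map_mul]
        ring
      have hne : u * v⁻¹ ≠ u' * v'⁻¹ := by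
        intro h
        apply hj
        field_simp at h
        linear_combination -h
      rw [h1, orth χ hχ, if_neg hne, norm_mul, norm_mul]
      have h2 := norm_char_le χ v
      have h3 : ‖(starRingEnd ℂ) (χ v')‖ ≤ 1 := by
        rw [conj_char]; exact norm_char_le _ _
      have h4 : ‖(0 : ℂ) - 1‖ = 1 := by simp
      rw [h4, mul_one]
      exact mul_le_one₀ h2 (norm_nonneg _) h3

/-- second moment for planar projections -/
theorem second_proj (χ : DirichletCharacter ℂ p) (hχ : χ ≠ 1) (P : Finset (ZMod p × ZMod p)) (L : ℕ)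
    (hL : ∀ α β γ : ZMod p, (α ≠ 0 ∨ β ≠ 0) →
      (P.filter (fun z => α * z.1 + β * z.2 = γ)).card ≤ L) :
    ∑ t : ZMod p, ‖∑ j ∈ P ×ˢ P, χ (Dp j t)‖ ^ 2
      ≤ (P.card : ℝ) ^ 2 * ((P.card : ℝ) ^ 2 + p * (P.card * L)) := by
  classical
  have h1 : ∀ t : ZMod p, ((‖∑ j ∈ P ×ˢ P, χ (Dp j t)‖ ^ 2 : ℝ) : ℂ)
      = ∑ j ∈ P ×ˢ P, ∑ j' ∈ P ×ˢ P, χ (Dp j t) * (starRingEnd ℂ) (χ (Dp j' t)) := by
    intro t
    have h2 : ((‖∑ j ∈ P ×ˢ P, χ (Dp j t)‖ ^ 2 : ℝ) : ℂ)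
        = (∑ j ∈ P ×ˢ P, χ (Dp j t)) * (starRingEnd ℂ) (∑ j ∈ P ×ˢ P, χ (Dp j t)) := by
      rw [Complex.mul_conj, Complex.normSq_eq_norm_sq]
    rw [h2, map_sum, Finset.sum_mul_sum]
  have h3 : ((∑ t : ZMod p, ‖∑ j ∈ P ×ˢ P, χ (Dp j t)‖ ^ 2 : ℝ) : ℂ)
      = ∑ j ∈ P ×ˢ P, ∑ j' ∈ P ×ˢ P, ∑ t : ZMod p, χ (Dp j t) * (starRingEnd ℂ) (χ (Dp j' t)) := by
    rw [Complex.ofReal_sum, Finset.sum_congr rfl (fun t _ => h1 t), Finset.sum_comm]
    refine Finset.sum_congr rfl (fun j _ => ?_)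
    rw [Finset.sum_comm]
  have h4 : ∑ t : ZMod p, ‖∑ j ∈ P ×ˢ P, χ (Dp j t)‖ ^ 2
      = ‖∑ j ∈ P ×ˢ P, ∑ j' ∈ P ×ˢ P, ∑ t : ZMod p, χ (Dp j t) * (starRingEnd ℂ) (χ (Dp j' t))‖ := by
    rw [← h3, Complex.norm_real, Real.norm_of_nonneg]
    exact Finset.sum_nonneg (fun _ _ => sq_nonneg _)
  rw [h4]
  have h5 : ∀ j ∈ P ×ˢ P, ‖∑ j' ∈ P ×ˢ P, ∑ t : ZMod p, χ (Dp j t) * (starRingEnd ℂ) (χ (Dp j' t))‖
      ≤ (P.card : ℝ) ^ 2 + p * (P.card * L) := by
    intro j _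
    have hnn : (0 : ℝ) ≤ (P.card : ℝ) ^ 2 + p * (P.card * L) := by positivity
    by_cases hj : j.1 = j.2
    · have hz : ∀ t, Dp j t = 0 := by intro t; simp [Dp, hj]
      have : ∑ j' ∈ P ×ˢ P, ∑ t : ZMod p, χ (Dp j t) * (starRingEnd ℂ) (χ (Dp j' t)) = 0 := by
        refine Finset.sum_eq_zero (fun j' _ => Finset.sum_eq_zero (fun t _ => ?_))
        rw [hz t, MulChar.map_zero, zero_mul]
      rw [this, norm_zero]; exact hnn
    · have h6 : ∀ j' ∈ P ×ˢ P, ‖∑ t : ZMod p, χ (Dp j t) * (starRingEnd ℂ) (χ (Dp j' t))‖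
          ≤ 1 + (if Par j' j then (p : ℝ) else 0) := by
        intro j' _
        by_cases hp : Par j' j
        · rw [if_pos hp]
          refine (norm_sum_le _ _).trans ?_
          refine (Finset.sum_le_sum (g := fun _ => (1 : ℝ)) (fun t _ => ?_)).trans ?_
          · rw [norm_mul]
            refine mul_le_one₀ (norm_char_le _ _) (norm_nonneg _) ?_
            rw [conj_char]; exact norm_char_le _ _
          · simp [ZMod.card]
        · rw [if_neg hp, add_zero]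
          exact pair_bound χ hχ j j' hp
      refine (norm_sum_le _ _).trans ((Finset.sum_le_sum h6).trans ?_)
      rw [Finset.sum_add_distrib, Finset.sum_const, ← Finset.sum_filter, Finset.sum_const,
        nsmul_eq_mul, nsmul_eq_mul, Finset.card_product]
      have h7 := card_par P L hL j hj
      have h8 : (((P ×ˢ P).filter (fun j' => Par j' j)).card : ℝ) ≤ P.card * L := by
        exact_mod_cast h7
      push_cast
      have hp0 : (0 : ℝ) ≤ p := Nat.cast_nonneg _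
      nlinarith [mul_le_mul_of_nonneg_right h8 hp0]
  refine (norm_sum_le _ _).trans ((Finset.sum_le_sum h5).trans ?_)
  rw [Finset.sum_const, nsmul_eq_mul, Finset.card_product]
  push_cast
  apply le_of_eq; ring

end Pool.Agent.H735CB
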